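import Pool.Agent.Helper66.GP.Defs

/-! # B1: closure properties of small sets -/

universe u

namespace Pool.Agent.Helper44.GP

open ZFSet Pool.Agent.Helper66.SC Pool.Agent.Helper22.SC
open Pool.Agent.Helper66.GP
open Pool.Agent.Helper66.SC (Cls)

theorem oz_mem_of_lt {M A : Set ZFSet.{u}} (hM : IsZF M A) {κ c : Ordinal.{u}}
    (h : oz κ ∈ M) (hc : c < κ) : oz c ∈ M :=
  hM.trans _ h _ (Ordinal.mem_toZFSet_iff.2 ⟨c, hc, rfl⟩)

theorem cardLe_oz {M A : Set ZFSet.{u}} (hM : IsZF M A) {c d : Ordinal.{u}} (hc : oz c ∈ M)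
    (h : c ≤ d) : CardLe M (oz c) (oz d) :=
  cardLe_subset hM hc (by
    intro x hx
    obtain ⟨a, ha, rfl⟩ := Ordinal.mem_toZFSet_iff.1 hx
    exact Ordinal.mem_toZFSet_iff.2 ⟨a, ha.trans_le h, rfl⟩)

theorem small_oz {M A : Set ZFSet.{u}} (hM : IsZF M A) {κ c : Ordinal.{u}} (h : oz κ ∈ M)
    (hc : c < κ) : Small M κ (oz c) :=
  ⟨oz_mem_of_lt hM h hc, c, hc, cardLe_refl hM (oz_mem_of_lt hM h hc)⟩

theorem small_le {M A : Set ZFSet.{u}} (hM : IsZF M A) {κ : Ordinal.{u}} {x y : ZFSet.{u}}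
    (hy : Small M κ y) (hx : x ∈ M) (h : CardLe M x y) : Small M κ x := by
  obtain ⟨_, c, hc, h1⟩ := hy
  exact ⟨hx, c, hc, cardLe_trans hM hx h h1⟩

theorem small_sub {M A : Set ZFSet.{u}} (hM : IsZF M A) {κ : Ordinal.{u}} {x y : ZFSet.{u}}
    (hy : Small M κ y) (hx : x ∈ M) (h : x ⊆ y) : Small M κ x :=
  small_le hM hy hx (cardLe_subset hM hx h)

theorem small_pow {M : Set ZFSet.{u}} (hM : IsZF M ∅) {κ : Ordinal.{u}} (hκ : Inac M κ)
    {x : ZFSet.{u}} (hx : Small M κ x) : Small M κ (PW M x) := by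
  obtain ⟨hxM, c, hc, h1⟩ := hx
  obtain ⟨d, hd, h2⟩ := hκ.pow c hc
  exact ⟨Pow_mem hM hxM, d, hd, cardLe_trans hM (Pow_mem hM hxM) (cardLe_pow hM hxM h1) h2⟩

theorem small_max {M A : Set ZFSet.{u}} (hM : IsZF M A) {κ : Ordinal.{u}} {x y : ZFSet.{u}}
    (hκ : oz κ ∈ M) (hx : Small M κ x) (hy : Small M κ y) :
    ∃ m < κ, CardLe M x (oz m) ∧ CardLe M y (oz m) := by
  obtain ⟨hxM, c, hc, h1⟩ := hx
  obtain ⟨hyM, d, hd, h2⟩ := hy
  refine ⟨max c d, max_lt hc hd, ?_, ?_⟩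
  · exact cardLe_trans hM hxM h1 (cardLe_oz hM (oz_mem_of_lt hM hκ hc) (le_max_left _ _))
  · exact cardLe_trans hM hyM h2 (cardLe_oz hM (oz_mem_of_lt hM hκ hd) (le_max_right _ _))

theorem small_prod {M : Set ZFSet.{u}} (hM : IsZF M ∅) {κ : Ordinal.{u}} (hκ : Inac M κ)
    {x y : ZFSet.{u}} (hx : Small M κ x) (hy : Small M κ y) : Small M κ (x.prod y) := by
  obtain ⟨m, hm, h1, h2⟩ := small_max hM hκ.mem hx hy
  have hmM := oz_mem_of_lt hM hκ.mem hm
  have h3 : Small M κ ((oz m).prod (oz m)) := by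
    refine small_sub hM (small_pow hM hκ (small_pow hM hκ (small_oz hM hκ.mem hm)))
      (prod_mem hM hmM hmM) ?_
    intro t ht
    obtain ⟨a, ha, b, hb, rfl⟩ := ZFSet.mem_prod.1 ht
    have haM := hM.trans _ hmM _ ha
    have hbM := hM.trans _ hmM _ hb
    have k1 : ({a} : ZFSet.{u}) ∈ PW M (oz m) := by
      refine mem_Pow.2 ⟨?_, ?_⟩
      · have := hM.pair a haM a haM
        have e : ({a, a} : ZFSet.{u}) = {a} := by ext z; simp
        rwa [e] at this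
      · intro z hz
        rw [ZFSet.mem_singleton] at hz
        rwa [hz]
    have k2 : ({a, b} : ZFSet.{u}) ∈ PW M (oz m) := by
      refine mem_Pow.2 ⟨hM.pair a haM b hbM, ?_⟩
      intro z hz
      rcases ZFSet.mem_pair.1 hz with rfl | rfl
      · exact ha
      · exact hb
    refine mem_Pow.2 ⟨hM.pair_mem haM hbM, ?_⟩
    intro z hz
    unfold ZFSet.pair at hz
    rcases ZFSet.mem_pair.1 hz with rfl | rfl
    · exact k1
    · exact k2
  exact small_le hM h3 (prod_mem hM hx.1 hy.1) (cardLe_prod hM hx.1 hy.1 h1 h2)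

theorem inac_succ {M : Set ZFSet.{u}} (hM : IsZF M ∅) {κ : Ordinal.{u}} (hκ : Inac M κ)
    {c : Ordinal.{u}} (hc : c < κ) : c + 1 < κ := by
  by_contra h
  push Not at h
  obtain ⟨d, hd, h2⟩ := hκ.pow c hc
  have hdc : d ≤ c := Order.lt_add_one_iff.1 (hd.trans_le h)
  have hcM := oz_mem_of_lt hM hκ.mem hc
  exact not_cardLe_pow hM hcM (cardLe_trans hM (Pow_mem hM hcM) h2
    (cardLe_oz hM (oz_mem_of_lt hM hκ.mem hd) hdc))

theorem small_bound {M : Set ZFSet.{u}} (hM : IsZF M ∅) {κ : Ordinal.{u}} (hκ : Inac M κ)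
    {x f : ZFSet.{u}} (hx : Small M κ x) (hf : f ∈ M)
    (hfun : ∀ s y z, pair s y ∈ f → pair s z ∈ f → y = z) :
    ∃ b < κ, ∀ s ∈ x, ∀ y : Ordinal.{u}, y < κ → pair s (oz y) ∈ f → y < b := by
  obtain ⟨hxM, c, hc, h1⟩ := hx
  obtain ⟨j, hj, _, hj2, hj3⟩ := cardLe_iff.1 h1
  set g : ZFSet.{u} := ZFSet.sep (fun t => ∃ s ∈ x, Helper22.SC.app j s = pfst t ∧
    ZFSet.pair s (psnd t) ∈ f) ((oz c).prod (oz κ)) with hg
  have hcM := oz_mem_of_lt hM hκ.mem hc
  have hgM : g ∈ M := by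
    have := (show U KZ (fun _ _ (p : ((ZFSet.{u} × ZFSet.{u}) × (ZFSet.{u} × ZFSet.{u})) ×
      ZFSet.{u}) => ZFSet.sep (fun t => ∃ s ∈ p.2, Helper22.SC.app p.1.1.1 s = pfst t ∧
      ZFSet.pair s (psnd t) ∈ p.1.1.2) (ZFSet.prod p.1.2.1 p.1.2.2)) by
      apply_rules (transparency := .reducible) (maxDepth := 400) using is_poly).closed hM
      (a := (((j, f), (oz c, oz κ)), x)) (by
        simp only [in_prod, in_zfset]
        exact ⟨⟨⟨hj, hf⟩, hcM, hκ.mem⟩, hxM⟩)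
    exact in_zfset.1 this
  have hgf : ∀ a y z, pair a y ∈ g → pair a z ∈ g → y = z := by
    intro a y z h2 h3
    rw [hg, mem_sep] at h2 h3
    obtain ⟨_, s, hs, e1, h4⟩ := h2
    obtain ⟨_, s', hs', e2, h5⟩ := h3
    rw [pfst_pair] at e1 e2
    rw [psnd_pair] at h4 h5
    have : s = s' := hj3 s hs s' hs' (e1.trans e2.symm)
    subst this
    exact hfun s y z h4 h5
  obtain ⟨b, hb, hb'⟩ := hκ.reg c hc g hgM hgf
  refine ⟨b, hb, fun s hs y hy hsy => ?_⟩
  obtain ⟨ξ, hξ, he⟩ := Ordinal.mem_toZFSet_iff.1 (hj2 s hs)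
  refine hb' ξ y hξ hy ?_
  rw [hg, mem_sep, pfst_pair, psnd_pair]
  refine ⟨ZFSet.pair_mem_prod.2 ⟨Ordinal.mem_toZFSet_iff.2 ⟨ξ, hξ, rfl⟩,
    Ordinal.mem_toZFSet_iff.2 ⟨y, hy, rfl⟩⟩, s, hs, he.symm, hsy⟩

theorem not_cardLe_inac {M : Set ZFSet.{u}} (hM : IsZF M ∅) {κ : Ordinal.{u}}
    (hκ : Inac M κ) {c : Ordinal.{u}} (hc : c < κ) : ¬ CardLe M (oz κ) (oz c) := by
  intro h
  obtain ⟨f, hf, _, hf2, hf3⟩ := cardLe_iff.1 h
  set g : ZFSet.{u} := Pool.Agent.Helper66.SC.img (oz κ)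
    (fun y => ZFSet.pair (Helper22.SC.app f y) y) with hg
  have hgM : g ∈ M := by
    have := (show U KZ (fun _ _ (p : ZFSet.{u} × ZFSet.{u}) =>
      Pool.Agent.Helper66.SC.img p.2 (fun y => ZFSet.pair (Helper22.SC.app p.1 y) y)) by
      apply_rules (transparency := .reducible) (maxDepth := 400) using is_poly).closed hM
      (a := (f, oz κ)) (by
        simp only [in_prod, in_zfset]
        exact ⟨hf, hκ.mem⟩)
    exact in_zfset.1 this
  have hgf : ∀ a y z, pair a y ∈ g → pair a z ∈ g → y = z := by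
    intro a y z h2 h3
    obtain ⟨y', hy', e1⟩ := mem_img.1 h2
    obtain ⟨z', hz', e2⟩ := mem_img.1 h3
    rw [ZFSet.pair_inj] at e1 e2
    rw [← e1.2, ← e2.2]
    exact hf3 _ hy' _ hz' (e1.1.trans e2.1.symm)
  obtain ⟨b, hb, hb'⟩ := hκ.reg c hc g hgM hgf
  have hbκ : oz b ∈ oz κ := Ordinal.mem_toZFSet_iff.2 ⟨b, hb, rfl⟩
  obtain ⟨ξ, hξ, he⟩ := Ordinal.mem_toZFSet_iff.1 (hf2 _ hbκ)
  have := hb' ξ b hξ hb (mem_img.2 ⟨oz b, hbκ, by
    change ZFSet.pair _ (oz b) = ZFSet.pair ξ.toZFSet (oz b)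
    rw [he]⟩)
  exact lt_irrefl _ this

/-- the relation `TC` by bounded conditions -/
theorem TC_eq (l k : Ordinal.{u}) : TC l k = ZFSet.sep (fun t => ¬ pfst (pfst t) ∈ oz l ∧
    psnd t ∈ pfst (pfst t)) (((oz k).prod ZFSet.omega).prod (oz k)) := by
  ext t
  unfold TC
  rw [mem_sep, mem_sep]
  refine and_congr_right fun ht => ?_
  obtain ⟨s, hs, z, hz, rfl⟩ := ZFSet.mem_prod.1 ht
  obtain ⟨a, ha, b, hb, rfl⟩ := ZFSet.mem_prod.1 hs
  obtain ⟨α, hα, rfl⟩ := Ordinal.mem_toZFSet_iff.1 ha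
  obtain ⟨ξ, hξ, rfl⟩ := Ordinal.mem_toZFSet_iff.1 hz
  obtain ⟨n, rfl⟩ := mem_omega.1 hb
  rw [pfst_pair, psnd_pair, pfst_pair]
  constructor
  · rintro ⟨α', ξ', n', h1, h2, h3⟩
    rw [ZFSet.pair_inj, ZFSet.pair_inj] at h3
    obtain ⟨⟨h3, _⟩, h4⟩ := h3
    have e1 : α = α' := Ordinal.toZFSet_injective h3
    have e2 : ξ = ξ' := Ordinal.toZFSet_injective h4
    subst e1 e2
    exact ⟨fun h => absurd (Ordinal.toZFSet_mem_toZFSet_iff.1 h) (not_lt.2 h1),
      Ordinal.toZFSet_mem_toZFSet_iff.2 h2⟩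
  · rintro ⟨h1, h2⟩
    refine ⟨α, ξ, n, ?_, Ordinal.toZFSet_mem_toZFSet_iff.1 h2, rfl⟩
    by_contra hc
    push Not at hc
    exact h1 (Ordinal.toZFSet_mem_toZFSet_iff.2 hc)

theorem TC_mem {M A : Set ZFSet.{u}} (hM : IsZF M A) {l k : Ordinal.{u}} (hl : oz l ∈ M)
    (hk : oz k ∈ M) : TC l k ∈ M := by
  rw [TC_eq]
  have := (show U KZ (fun _ _ (p : ZFSet.{u} × ZFSet.{u}) =>
    ZFSet.sep (fun t => ¬ pfst (pfst t) ∈ p.1 ∧ psnd t ∈ pfst (pfst t))
      (ZFSet.prod (ZFSet.prod p.2 ZFSet.omega) p.2)) by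
    apply_rules (transparency := .reducible) (maxDepth := 400) using is_poly).closed hM
    (a := (oz l, oz k)) (by
      simp only [in_prod, in_zfset]
      exact ⟨hl, hk⟩)
  exact in_zfset.1 this

theorem TC_min (l k : Ordinal.{u}) : TC l k = TC (min l k) k := by
  rcases le_total l k with h | h
  · rw [min_eq_left h]
  · rw [min_eq_right h]
    ext t
    unfold TC
    rw [mem_sep, mem_sep]
    refine and_congr_right fun ht => ?_
    obtain ⟨s, hs, z, hz, rfl⟩ := ZFSet.mem_prod.1 ht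
    obtain ⟨a, ha, b, hb, rfl⟩ := ZFSet.mem_prod.1 hs
    obtain ⟨α, hα, rfl⟩ := Ordinal.mem_toZFSet_iff.1 ha
    constructor
    · rintro ⟨α', ξ', n', h1, h2, h3⟩
      exact ⟨α', ξ', n', h.trans h1, h2, h3⟩
    · rintro ⟨α', ξ', n', h1, h2, h3⟩
      exfalso
      rw [ZFSet.pair_inj, ZFSet.pair_inj] at h3
      have e1 : α = α' := Ordinal.toZFSet_injective h3.1.1
      subst e1
      exact absurd hα (not_lt.2 h1)

theorem small_TC {M : Set ZFSet.{u}} (hM : IsZF M ∅) {κ : Ordinal.{u}} (hκ : Inac M κ)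
    (l : Ordinal.{u}) {m : Ordinal.{u}} (hm : m < κ) : Small M κ (TC l m) := by
  have hmM := oz_mem_of_lt hM hκ.mem hm
  have hω : Small M κ ZFSet.omega := by
    rw [omega_eq]
    exact small_oz hM hκ.mem hκ.gt
  have h1 := small_prod hM hκ (small_prod hM hκ (small_oz hM hκ.mem hm) hω)
    (small_oz hM hκ.mem hm)
  have h2 : TC l m ∈ M := by
    rw [TC_min]
    refine TC_mem hM ?_ hmM
    exact oz_mem_of_lt hM hκ.mem (lt_of_le_of_lt (min_le_right _ _) hm)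
  exact small_sub hM h1 h2 (fun t ht => (mem_sep.1 ht).1)

theorem small_Fn (hFN : ST_FN.{u}) {M : Set ZFSet.{u}} (hM : IsZF M ∅) {κ : Ordinal.{u}}
    (hκ : Inac M κ) {x : ZFSet.{u}} (hx : Small M κ x) : Small M κ (Fn x) := by
  have h1 : Fn x ∈ M := in_zfset.1 (hFN.1.closed hM (a := x) (in_zfset.2 hx.1))
  refine small_sub hM (small_pow hM hκ hx) h1 ?_
  intro p hp
  refine mem_Pow.2 ⟨hM.trans _ h1 _ hp, ?_⟩
  exact ZFSet.mem_powerset.1 (mem_sep.1 hp).1

open Classical in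
theorem small_union {M : Set ZFSet.{u}} (hM : IsZF M ∅) (hW : WO M) {κ : Ordinal.{u}}
    (hκ : Inac M κ) {x y : ZFSet.{u}} (hx : Small M κ x) (hy : Small M κ y) :
    Small M κ (x ∪ y) := by
  obtain ⟨m, hm, h1, h2⟩ := small_max hM hκ.mem hx hy
  have hmM := oz_mem_of_lt hM hκ.mem hm
  have hs : ({x, y} : ZFSet.{u}) ∈ M := hM.pair x hx.1 y hy.1
  -- `{x, y}` is small: it is contained in the power set of the power set of anything large
  have h2M : oz (1 + 1 : Ordinal.{u}) ∈ M := by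
    refine oz_mem_of_lt hM hκ.mem (lt_trans ?_ hκ.gt)
    exact_mod_cast Ordinal.natCast_lt_omega0 2
  have h3 : CardLe M ({x, y} : ZFSet.{u}) (oz (1 + 1 : Ordinal.{u})) := by
    refine cardLe_of_gr (g := fun z => if z = x then nat 0 else nat 1) ?_ ?_ ?_
    · have := (show U KZ (fun _ _ (p : ZFSet.{u} × ZFSet.{u}) =>
        Helper22.SC.gr p.1 (fun z => if z = p.2 then nat 0 else nat 1)) by
        refine U.gr U.id.fst ?_
        refine U.ite (R := fun _ _ (q : (ZFSet.{u} × ZFSet.{u}) × ZFSet.{u}) => q.2 = q.1.2) ?_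
          (U.nat' 0) (U.nat' 1)
        exact Helper22.SC.URel.eq U.id.snd U.id.fst.snd).closed hM
        (a := (({x, y} : ZFSet.{u}), x)) (by
          simp only [in_prod, in_zfset]
          exact ⟨hs, hx.1⟩)
      exact in_zfset.1 this
    · intro z _
      have e : oz (1 + 1 : Ordinal.{u}) = nat 2 := by
        unfold nat
        congr 1
        norm_num
      rw [e]
      split_ifs
      · exact nat_mem_nat.2 (by norm_num)
      · exact nat_mem_nat.2 (by norm_num)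
    · intro z hz w hw h
      have hne : (nat 0 : ZFSet.{u}) ≠ nat 1 := fun h => by
        have := nat_inj.1 h
        omega
      rcases ZFSet.mem_pair.1 hz with rfl | hz1
      · rcases ZFSet.mem_pair.1 hw with rfl | hw1
        · rfl
        · rw [if_pos rfl] at h
          by_contra hc
          rw [if_neg (fun h => hc h.symm)] at h
          exact hne h
      · rcases ZFSet.mem_pair.1 hw with rfl | hw1
        · rw [if_pos rfl] at h
          by_contra hc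
          rw [if_neg hc] at h
          exact hne h.symm
        · rw [hz1, hw1]
  have h4 := st_K4 M ∅ hM hW _ hs _ h2M _ hmM h3 (by
    intro z hz
    rcases ZFSet.mem_pair.1 hz with rfl | rfl
    · exact h1
    · exact h2)
  have e : (ZFSet.sUnion ({x, y} : ZFSet.{u})) = x ∪ y := by
    ext z
    rw [mem_sUnion, mem_union]
    constructor
    · rintro ⟨w, hw, hz⟩
      rcases ZFSet.mem_pair.1 hw with rfl | rfl
      · exact Or.inl hz
      · exact Or.inr hz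
    · rintro (h | h)
      · exact ⟨x, ZFSet.mem_pair.2 (Or.inl rfl), h⟩
      · exact ⟨y, ZFSet.mem_pair.2 (Or.inr rfl), h⟩
  rw [e] at h4
  have hxy : x ∪ y ∈ M := by
    rw [← e]
    exact hM.sUnion _ hs
  refine small_le hM (small_prod hM hκ (small_oz hM hκ.mem ?_) (small_oz hM hκ.mem hm)) hxy h4
  exact lt_trans (by exact_mod_cast Ordinal.natCast_lt_omega0 2) hκ.gt

/-- B1. -/
theorem st_B1 (hFN : ST_FN.{u}) : ST_B1.{u} := by
  intro M κ hM hW hκ
  refine ⟨fun x hx => small_pow hM hκ hx, fun x y hx hy => small_prod hM hκ hx hy,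
    fun x y hx hy => small_union hM hW hκ hx hy, fun x y hy hx h => small_le hM hy hx h,
    fun x hx => small_Fn hFN hM hκ hx, fun c hc => small_oz hM hκ.mem hc,
    fun c hc => ⟨inac_succ hM hκ hc, not_cardLe_inac hM hκ hc⟩,
    fun l m hm => small_Fn hFN hM hκ (small_TC hM hκ l hm),
    fun x hx f hf hfun => small_bound hM hκ hx hf hfun⟩

end Pool.Agent.Helper44.GP
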