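import Pool.Agent.Helper44.GP.B1
import Pool.Agent.Helper99.SC.D2r

/-! # B2: existence of good ordinals -/

universe u

namespace Pool.Agent.Helper44.GP

open ZFSet Pool.Agent.Helper66.SC Pool.Agent.Helper22.SC
open Pool.Agent.Helper66.GP
open Pool.Agent.Helper66.SC (Cls)

theorem inac_nat {M : Set ZFSet.{u}} (hM : IsZF M ∅) {κ : Ordinal.{u}} (hκ : Inac M κ)
    {c : Ordinal.{u}} (hc : c < κ) (n : ℕ) : c + n < κ := by
  induction n with
  | zero => simpa using hc
  | succ n ih =>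
    have := inac_succ hM hκ ih
    rwa [add_assoc, ← Nat.cast_succ] at this

open Classical in
theorem inac_omega {M : Set ZFSet.{u}} (hM : IsZF M ∅) {κ : Ordinal.{u}} (hκ : Inac M κ)
    {c : Ordinal.{u}} (hc : c < κ) : c + Ordinal.omega0 < κ := by
  have key := U.natrec (C := KZ.{u}) (α := ZFSet.{u} × ZFSet.{u}) (z := fun _ _ p => rk p.1)
    (S := fun _ _ _ _ g => insert g g) (H := fun _ _ p n => oz (p.1.rank + (n : Ordinal.{u})))
    (f := fun _ _ p => p.2) (U.rk U.id.fst) (by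
      apply_rules (transparency := .reducible) (maxDepth := 400) using is_poly)
    (by intro N A hN a ha; simp [rk]) (by
      intro N A hN a ha n
      rw [Nat.cast_add, Nat.cast_one, ← add_assoc]
      exact Ordinal.toZFSet_add_one _) U.id.snd
  set F : ZFSet.{u} := gr ZFSet.omega (fun x => if x ∈ ZFSet.omega then
    oz ((oz c).rank + (toNat x : Ordinal.{u})) else ∅) with hF
  have hcM := oz_mem_of_lt hM hκ.mem hc
  have hFM : F ∈ M := by
    have h := (U.gr (C := KZ.{u}) (α := ZFSet.{u}) (f := fun _ _ _ => ZFSet.omega)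
      (g := fun _ _ a x => if x ∈ ZFSet.omega then oz (a.rank + (toNat x : Ordinal.{u})) else ∅)
      U.omega key).closed hM
      (a := oz c) (in_zfset.2 hcM)
    exact in_zfset.1 h
  obtain ⟨b, hb, hb'⟩ := hκ.reg Ordinal.omega0 hκ.gt F hFM (by
    intro x y z h1 h2
    rw [hF, pair_mem_gr] at h1 h2
    exact h1.2.trans h2.2.symm)
  refine lt_of_le_of_lt ?_ hb
  rw [Ordinal.add_le_iff_of_isSuccLimit Ordinal.isSuccLimit_omega0]
  intro d hd
  obtain ⟨n, rfl⟩ := Ordinal.lt_omega0.1 hd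
  refine (hb' (n : Ordinal.{u}) (c + n) (Ordinal.natCast_lt_omega0 n) (inac_nat hM hκ hc n) ?_).le
  rw [hF, pair_mem_gr]
  refine ⟨nat_mem_omega n, ?_⟩
  have h1 : oz ((n : Ordinal.{u})) = nat n := rfl
  rw [h1, if_pos (nat_mem_omega n), toNat_nat]
  simp [oz]

/-- the levels of the cumulative hierarchy are small -/
theorem small_V {M : Set ZFSet.{u}} (hM : IsZF M ∅) (hW : WO M) {κ : Ordinal.{u}}
    (hκ : Inac M κ) (a : Ordinal.{u}) : a < κ → Small M κ (VM M (oz a)) := by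
  induction a using WellFoundedLT.induction with
  | ind a ih =>
    intro ha
    have haM := oz_mem_of_lt hM hκ.mem ha
    have hg : ∀ y ∈ oz a, ∃ c < κ, CardLe M (PW M (VM M y)) (oz c) := by
      intro y hy
      obtain ⟨b, hb, rfl⟩ := Ordinal.mem_toZFSet_iff.1 hy
      obtain ⟨_, c, hc, h⟩ := small_pow hM hκ (ih b hb (hb.trans ha))
      exact ⟨c, hc, h⟩
    set T : ZFSet.{u} → ZFSet.{u} := fun y => ZFSet.sep
      (fun c => CardLe M (Pool.Agent.Helper66.SC.Pow M (VM M y)) c) (oz κ) with hT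
    have hTo : ∀ y, ∀ x ∈ T y, x.IsOrdinal := by
      intro y x hx
      exact (isOrdinal_toZFSet κ).mem (mem_sep.1 hx).1
    have hTn : ∀ y ∈ oz a, T y ≠ ∅ := by
      intro y hy h
      obtain ⟨c, hc, h1⟩ := hg y hy
      have : oz c ∈ T y := mem_sep.2 ⟨Ordinal.mem_toZFSet_iff.2 ⟨c, hc, rfl⟩, h1⟩
      rw [h] at this
      exact notMem_empty _ this
    set F : ZFSet.{u} := gr (oz a) (fun y => lst (T y)) with hF
    have hFM : F ∈ M := by
      have h := (show U KZ (fun N _ (p : ZFSet.{u} × ZFSet.{u}) =>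
        Pool.Agent.Helper22.SC.gr p.1 (fun y => Pool.Agent.Helper22.SC.lst (ZFSet.sep
          (fun c => CardLe N (Pool.Agent.Helper66.SC.Pow N (Pool.Agent.Helper22.SC.VM N y)) c)
          p.2))) by
        apply_rules (transparency := .reducible) (maxDepth := 400) using is_poly).closed hM
        (a := (oz a, oz κ)) (by
          simp only [in_prod, in_zfset]
          exact ⟨haM, hκ.mem⟩)
      exact in_zfset.1 h
    obtain ⟨d, hd, hd'⟩ := hκ.reg a ha F hFM (by
      intro x y z h1 h2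
      rw [hF, pair_mem_gr] at h1 h2
      exact h1.2.trans h2.2.symm)
    have hdM := oz_mem_of_lt hM hκ.mem hd
    have hall : ∀ y ∈ oz a, CardLe M (PW M (VM M y)) (oz d) := by
      intro y hy
      have h1 := (lst_mem (hTo y) (hTn y hy)).1
      obtain ⟨h2, h3⟩ := mem_sep.1 h1
      obtain ⟨e, he, hee⟩ := Ordinal.mem_toZFSet_iff.1 h2
      obtain ⟨b, hb, rfl⟩ := Ordinal.mem_toZFSet_iff.1 hy
      have h4 := hd' b e hb he (by
        rw [hF, pair_mem_gr]
        exact ⟨hy, hee⟩)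
      have hyM := hM.trans _ haM _ hy
      refine cardLe_trans hM (Pow_mem hM (hM.VM_mem hyM)) h3 ?_
      have heM := oz_mem_of_lt hM hκ.mem he
      have := cardLe_oz hM heM h4.le
      rwa [show oz e = lst (T (oz b)) from hee] at this
    set s : ZFSet.{u} := Pool.Agent.Helper66.SC.img (oz a)
      (fun y => Pool.Agent.Helper66.SC.Pow M (VM M y)) with hs
    set g : ZFSet.{u} := gr (oz a) (fun y => Pool.Agent.Helper66.SC.Pow M (VM M y)) with hgr
    have hsM : s ∈ M := by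
      have h := (show U KZ (fun N _ (p : ZFSet.{u}) =>
        Pool.Agent.Helper66.SC.img p (fun y =>
          Pool.Agent.Helper66.SC.Pow N (Pool.Agent.Helper22.SC.VM N y))) by
        apply_rules (transparency := .reducible) (maxDepth := 400) using is_poly).closed hM
        (a := oz a) (in_zfset.2 haM)
      exact in_zfset.1 h
    have hgM : g ∈ M := by
      have h := (show U KZ (fun N _ (p : ZFSet.{u}) =>
        Pool.Agent.Helper22.SC.gr p (fun y =>
          Pool.Agent.Helper66.SC.Pow N (Pool.Agent.Helper22.SC.VM N y))) by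
        apply_rules (transparency := .reducible) (maxDepth := 400) using is_poly).closed hM
        (a := oz a) (in_zfset.2 haM)
      exact in_zfset.1 h
    have hsa : CardLe M s (oz a) := by
      refine st_K2 M ∅ hM (oz a) haM s hsM g hgM a haM (cardLe_refl hM haM) ?_ ?_
      · intro x y z h1 h2
        rw [hgr, pair_mem_gr] at h1 h2
        exact h1.2.trans h2.2.symm
      · intro y hy
        obtain ⟨x, hx, rfl⟩ := mem_img.1 hy
        exact ⟨x, hx, pair_mem_gr.2 ⟨hx, rfl⟩⟩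
    have h4 := st_K4 M ∅ hM hW s hsM (oz a) haM (oz d) hdM hsa (by
      intro z hz
      obtain ⟨y, hy, rfl⟩ := mem_img.1 hz
      exact hall y hy)
    have e : VM M (oz a) = ZFSet.sUnion s := VM_rec hM (oz a)
    rw [e]
    exact small_le hM (small_prod hM hκ (small_oz hM hκ.mem ha) (small_oz hM hκ.mem hd))
      (hM.sUnion _ hsM) h4

/-! ### closure of the levels -/

section
variable {M : Set ZFSet.{u}} {c : Ordinal.{u}}

theorem mem_P {x : ZFSet.{u}} : x ∈ VM M (oz (c + Ordinal.omega0)) ↔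
    x ∈ M ∧ ∃ n : ℕ, x.rank < c + n := by
  rw [mem_VM, Pool.Agent.Helper99.SC.rank_oz]
  refine and_congr_right fun _ => ?_
  constructor
  · intro h
    obtain ⟨b, hb, hab⟩ := (Ordinal.lt_add_iff Ordinal.omega0_ne_zero).1 h
    obtain ⟨n, rfl⟩ := Ordinal.lt_omega0.1 hb
    refine ⟨n + 1, lt_of_le_of_lt hab ?_⟩
    exact (add_lt_add_iff_left _).2 (by exact_mod_cast Nat.lt_succ_self n)
  · rintro ⟨n, hn⟩
    exact hn.trans ((add_lt_add_iff_left _).2 (Ordinal.natCast_lt_omega0 n))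

theorem P_of_rank (hM : IsZF M ∅) {x : ZFSet.{u}} (hx : x ∈ M) {n : ℕ}
    (h : x.rank ≤ c + n) : x ∈ VM M (oz (c + Ordinal.omega0)) := by
  refine mem_P.2 ⟨hx, n + 1, lt_of_le_of_lt h ?_⟩
  exact (add_lt_add_iff_left _).2 (by exact_mod_cast Nat.lt_succ_self n)

theorem P_fin (hM : IsZF M ∅) {x : ZFSet.{u}} (hx : x ∈ M) (hf : {y | y ∈ x}.Finite)
    (h : ∀ y ∈ x, y ∈ VM M (oz (c + Ordinal.omega0))) :
    x ∈ VM M (oz (c + Ordinal.omega0)) := by
  have h1 : ∀ y ∈ x, ∃ n : ℕ, y.rank < c + n := fun y hy => (mem_P.1 (h y hy)).2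
  choose! n hn using h1
  obtain ⟨N, hN⟩ := (hf.image n).bddAbove
  refine P_of_rank hM hx (n := N) ?_
  rw [rank_le_iff]
  intro y hy
  refine (hn y hy).trans_le (add_le_add le_rfl ?_)
  exact_mod_cast hN ⟨y, hy, rfl⟩

theorem P_pair2 (hM : IsZF M ∅) {a b : ZFSet.{u}} (ha : a ∈ VM M (oz (c + Ordinal.omega0)))
    (hb : b ∈ VM M (oz (c + Ordinal.omega0))) :
    ({a, b} : ZFSet.{u}) ∈ VM M (oz (c + Ordinal.omega0)) := by
  refine P_fin hM (hM.pair a (mem_P.1 ha).1 b (mem_P.1 hb).1) ?_ ?_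
  · have : {y : ZFSet.{u} | y ∈ ({a, b} : ZFSet.{u})} ⊆ {a, b} := by
      intro y hy
      exact ZFSet.mem_pair.1 hy
    exact (Set.toFinite ({a, b} : Set ZFSet.{u})).subset this
  · intro y hy
    rcases ZFSet.mem_pair.1 hy with rfl | rfl
    · exact ha
    · exact hb

theorem P_pair (hM : IsZF M ∅) {a b : ZFSet.{u}} (ha : a ∈ VM M (oz (c + Ordinal.omega0)))
    (hb : b ∈ VM M (oz (c + Ordinal.omega0))) :
    ZFSet.pair a b ∈ VM M (oz (c + Ordinal.omega0)) := by
  unfold ZFSet.pair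
  refine P_pair2 hM ?_ (P_pair2 hM ha hb)
  have e : ({a} : ZFSet.{u}) = {a, a} := by ext z; simp
  rw [e]
  exact P_pair2 hM ha ha

theorem P_nat (hM : IsZF M ∅) (n : ℕ) : (nat n : ZFSet.{u}) ∈ VM M (oz (c + Ordinal.omega0)) := by
  refine mem_P.2 ⟨hM.trans _ hM.omega _ (nat_mem_omega n), n + 1, ?_⟩
  have h : (nat n : ZFSet.{u}).rank = n := by simp [nat]
  rw [h]
  calc (n : Ordinal.{u}) < ((n + 1 : ℕ) : Ordinal.{u}) := by exact_mod_cast Nat.lt_succ_self n
    _ ≤ c + ((n + 1 : ℕ) : Ordinal.{u}) := le_add_self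

theorem oz_sub_P (hM : IsZF M ∅) (hc : oz c ∈ M) : oz c ⊆ VM M (oz (c + Ordinal.omega0)) := by
  intro x hx
  refine mem_P.2 ⟨hM.trans _ hc _ hx, 0, ?_⟩
  obtain ⟨a, ha, rfl⟩ := Ordinal.mem_toZFSet_iff.1 hx
  simpa using ha

end

/-- an injection of `oz (m+1)` -/
theorem cardLe_succ_P {M : Set ZFSet.{u}} (hM : IsZF M ∅) {c m : Ordinal.{u}} (hm : oz m ∈ M)
    (h : CardLe M (oz m) (VM M (oz (c + Ordinal.omega0)))) :
    CardLe M (oz (m + 1)) (VM M (oz (c + Ordinal.omega0))) := by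
  classical
  obtain ⟨j, hj, _, hj2, hj3⟩ := cardLe_iff.1 h
  have hm1 : oz (m + 1) ∈ M := by
    have := hM.succ_mem hm
    rwa [oz, Ordinal.toZFSet_add_one]
  refine cardLe_of_gr (g := fun z => if z ∈ oz m then
    ZFSet.pair (nat 0) (Helper22.SC.app j z) else ZFSet.pair (nat 1) (nat 0)) ?_ ?_ ?_
  · have h := (U.gr (C := KZ.{u}) (α := (ZFSet.{u} × ZFSet.{u}) × ZFSet.{u})
      (f := fun _ _ p => p.2)
      (g := fun _ _ (p : (ZFSet.{u} × ZFSet.{u}) × ZFSet.{u}) x =>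
        if x ∈ p.1.2 then ZFSet.pair (nat 0) (Helper22.SC.app p.1.1 x)
        else ZFSet.pair (nat 1) (nat 0)) U.id.snd (by
      refine U.ite (R := fun _ _ (p : ((ZFSet.{u} × ZFSet.{u}) × ZFSet.{u}) × ZFSet.{u}) =>
        p.2 ∈ p.1.1.2) (Helper22.SC.URel.mem U.id.snd U.id.fst.fst.snd) ?_ ?_
      · exact U.pair (U.nat' 0) (U.app U.id.fst.fst.fst U.id.snd)
      · exact U.pair (U.nat' 1) (U.nat' 0))).closed hM (a := ((j, oz m), oz (m + 1))) (by
        simp only [in_prod, in_zfset]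
        exact ⟨⟨hj, hm⟩, hm1⟩)
    exact in_zfset.1 h
  · intro z hz
    split_ifs with h1
    · exact P_pair hM (P_nat hM 0) (hj2 z h1)
    · exact P_pair hM (P_nat hM 1) (P_nat hM 0)
  · intro z hz w hw hzw
    have hne : (nat 0 : ZFSet.{u}) ≠ nat 1 := fun h => by
      have := nat_inj.1 h
      omega
    have htop : ∀ z, z ∈ oz (m + 1) → z ∉ oz m → z = oz m := by
      intro z hz hz'
      obtain ⟨a, ha, rfl⟩ := Ordinal.mem_toZFSet_iff.1 hz
      rcases (Order.lt_add_one_iff.1 ha).lt_or_eq with h1 | h1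
      · exact absurd (Ordinal.mem_toZFSet_iff.2 ⟨a, h1, rfl⟩) hz'
      · rw [h1]
    by_cases h1 : z ∈ oz m
    · by_cases h2 : w ∈ oz m
      · rw [if_pos h1, if_pos h2, ZFSet.pair_inj] at hzw
        exact hj3 z h1 w h2 hzw.2
      · rw [if_pos h1, if_neg h2, ZFSet.pair_inj] at hzw
        exact absurd hzw.1 hne
    · by_cases h2 : w ∈ oz m
      · rw [if_neg h1, if_pos h2, ZFSet.pair_inj] at hzw
        exact absurd hzw.1.symm hne
      · rw [htop z hz h1, htop w hw h2]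

theorem cardLe_Col_P {M : Set ZFSet.{u}} (hM : IsZF M ∅) {c m : Ordinal.{u}} (hm : oz m ∈ M)
    (hColM : Col 0 m ∈ M)
    (h : CardLe M (oz m) (VM M (oz (c + Ordinal.omega0)))) :
    CardLe M (Col 0 m) (VM M (oz (c + Ordinal.omega0))) := by
  obtain ⟨j, hj, _, hj2, hj3⟩ := cardLe_iff.1 h
  set e : ZFSet.{u} → ZFSet.{u} := fun t => ZFSet.pair (ZFSet.pair
    (Helper22.SC.app j (pfst (pfst t))) (psnd (pfst t))) (Helper22.SC.app j (psnd t)) with he
  have heP : ∀ t ∈ TC 0 m, e t ∈ VM M (oz (c + Ordinal.omega0)) := by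
    intro t ht
    have ht' := (mem_sep.1 ht).1
    obtain ⟨s, hs, z, hz, rfl⟩ := ZFSet.mem_prod.1 ht'
    obtain ⟨a, ha, b, hb, rfl⟩ := ZFSet.mem_prod.1 hs
    obtain ⟨n, rfl⟩ := mem_omega.1 hb
    rw [he]
    simp only [pfst_pair, psnd_pair]
    exact P_pair hM (P_pair hM (hj2 a ha) (P_nat hM n)) (hj2 z hz)
  have hei : ∀ t ∈ TC 0 m, ∀ t' ∈ TC 0 m, e t = e t' → t = t' := by
    intro t ht t' ht' h1
    obtain ⟨s, hs, z, hz, rfl⟩ := ZFSet.mem_prod.1 (mem_sep.1 ht).1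
    obtain ⟨a, ha, b, hb, rfl⟩ := ZFSet.mem_prod.1 hs
    obtain ⟨s', hs', z', hz', rfl⟩ := ZFSet.mem_prod.1 (mem_sep.1 ht').1
    obtain ⟨a', ha', b', hb', rfl⟩ := ZFSet.mem_prod.1 hs'
    rw [he] at h1
    simp only [pfst_pair, psnd_pair, ZFSet.pair_inj] at h1
    rw [hj3 a ha a' ha' h1.1.1, h1.1.2, hj3 z hz z' hz' h1.2]
  have hsub : ∀ p ∈ Col 0 m, p ⊆ TC 0 m ∧ {x | x ∈ p}.Finite := by
    intro p hp
    unfold Col Fn at hp
    have h1 := mem_sep.1 hp
    exact ⟨ZFSet.mem_powerset.1 h1.1, h1.2.1⟩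
  have hU : U KZ (fun _ _ (q : ZFSet.{u} × ZFSet.{u}) =>
      Pool.Agent.Helper66.SC.img q.2 (fun t => ZFSet.pair (ZFSet.pair
        (Helper22.SC.app q.1 (Pool.Agent.Helper22.SC.pfst (Pool.Agent.Helper22.SC.pfst t)))
        (Pool.Agent.Helper22.SC.psnd (Pool.Agent.Helper22.SC.pfst t)))
        (Helper22.SC.app q.1 (Pool.Agent.Helper22.SC.psnd t)))) := by
    apply_rules (transparency := .reducible) (maxDepth := 400) using is_poly
  refine cardLe_of_gr (g := fun p => Pool.Agent.Helper66.SC.img p e) ?_ ?_ ?_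
  · have h := (U.gr (C := KZ.{u}) (α := ZFSet.{u} × ZFSet.{u}) (f := fun _ _ p => p.2)
      (g := fun _ _ (p : ZFSet.{u} × ZFSet.{u}) x =>
      Pool.Agent.Helper66.SC.img x (fun t => ZFSet.pair (ZFSet.pair
        (Helper22.SC.app p.1 (Pool.Agent.Helper22.SC.pfst (Pool.Agent.Helper22.SC.pfst t)))
        (Pool.Agent.Helper22.SC.psnd (Pool.Agent.Helper22.SC.pfst t)))
        (Helper22.SC.app p.1 (Pool.Agent.Helper22.SC.psnd t)))) U.id.snd
      (hU.comp (f := fun _ _ (p : (ZFSet.{u} × ZFSet.{u}) × ZFSet.{u}) => (p.1.1, p.2))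
        (U.id.fst.fst.prodMk U.id.snd))).closed hM (a := (j, Col 0 m)) (by
        simp only [in_prod, in_zfset]
        exact ⟨hj, hColM⟩)
    exact in_zfset.1 h
  · intro p hp
    obtain ⟨h1, h2⟩ := hsub p hp
    refine P_fin hM ?_ ?_ ?_
    · have h := hU.closed hM (a := (j, p)) (by
        simp only [in_prod, in_zfset]
        exact ⟨hj, hM.trans _ hColM _ hp⟩)
      exact in_zfset.1 h
    · refine (h2.image e).subset ?_
      intro y hy
      obtain ⟨x, hx, rfl⟩ := mem_img.1 hy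
      exact ⟨x, hx, rfl⟩
    · intro y hy
      obtain ⟨x, hx, rfl⟩ := mem_img.1 hy
      exact heP x (h1 hx)
  · intro p hp q hq hpq
    have h1 := (hsub p hp).1
    have h2 := (hsub q hq).1
    have key : ∀ {p q : ZFSet.{u}}, p ⊆ TC 0 m → q ⊆ TC 0 m →
        Pool.Agent.Helper66.SC.img p e = Pool.Agent.Helper66.SC.img q e → p ⊆ q := by
      intro p q h1 h2 hpq x hx
      have h3 : e x ∈ Pool.Agent.Helper66.SC.img q e := by
        rw [← hpq]
        exact mem_img.2 ⟨x, hx, rfl⟩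
      obtain ⟨y, hy, hxy⟩ := mem_img.1 h3
      have : x = y := hei x (h1 hx) y (h2 hy) (by first | exact hxy | exact hxy.symm)
      rw [this]
      exact hy
    ext z
    exact ⟨fun h => key h1 h2 hpq h, fun h => key h2 h1 hpq.symm h⟩

/-- B2. -/
theorem st_B2 (hFN : ST_FN.{u}) : ST_B2.{u} := by
  intro M κ hM hW hκ x hx l hl
  -- enlarge `l`
  set l' : Ordinal.{u} := max l Ordinal.omega0 with hl'
  have hl'κ : l' < κ := max_lt hl hκ.gt
  obtain ⟨hxM, d, hd, hxd⟩ := hx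
  set c : Ordinal.{u} := max (l' + 1) d with hcdef
  have hcκ : c < κ := max_lt (inac_succ hM hκ hl'κ) hd
  have hcM := oz_mem_of_lt hM hκ.mem hcκ
  have hlM := oz_mem_of_lt hM hκ.mem hl'κ
  have hlc : l' < c := (Order.lt_succ l').trans_le (le_max_left _ _)
  have hωκ := inac_omega hM hκ hcκ
  set P : ZFSet.{u} := VM M (oz (c + Ordinal.omega0)) with hP
  obtain ⟨hPM, o, ho, hPo⟩ := small_V hM hW hκ _ hωκ
  have hoM := oz_mem_of_lt hM hκ.mem ho
  obtain ⟨m, hmo, hPm, hmP⟩ := st_K3 M ∅ hM P hPM o hoM hPo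
  have hmκ : m < κ := lt_of_le_of_lt hmo ho
  have hmM := oz_mem_of_lt hM hκ.mem hmκ
  have hlm : l' < m := by
    by_contra hc
    push Not at hc
    have h1 : PW M (oz l') ⊆ P := by
      intro y hy
      obtain ⟨h1, h2⟩ := mem_Pow.1 hy
      refine P_of_rank hM h1 (n := 0) ?_
      calc y.rank ≤ (oz l').rank := rank_mono h2
        _ = l' := by simp [oz]
        _ ≤ c + ((0 : ℕ) : Ordinal.{u}) := by simpa using hlc.le
    have hPW := Pow_mem hM hlM
    exact not_cardLe_pow hM hlM (cardLe_trans hM hPW (cardLe_subset hM hPW h1)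
      (cardLe_trans hM hPM hPm (cardLe_oz hM hmM hc)))
  have hm1 : oz (m + 1) ∈ M := oz_mem_of_lt hM hκ.mem (inac_succ hM hκ hmκ)
  refine ⟨m, (le_max_left _ _).trans_lt hlm, hmκ, ?_, ?_, ?_, ?_⟩
  · have hdM := oz_mem_of_lt hM hκ.mem hd
    have h0 : CardLe M (oz d) (oz c) := cardLe_oz hM hdM (le_max_right _ _)
    refine cardLe_trans hM hxM hxd (cardLe_trans hM hdM h0 ?_)
    exact cardLe_trans hM hcM (cardLe_subset hM hcM (oz_sub_P hM hcM)) hPm
  · exact ((le_max_right _ _).trans_lt hlm).le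
  · refine cardLe_trans hM (prod_mem hM hmM hmM) (cardLe_prod hM hmM hmM hmP hmP) ?_
    refine cardLe_trans hM (prod_mem hM hPM hPM) (cardLe_subset hM (prod_mem hM hPM hPM) ?_) hPm
    intro t ht
    obtain ⟨a, ha, b, hb, rfl⟩ := ZFSet.mem_prod.1 ht
    exact P_pair hM ha hb
  · have hCol : Col 0 (m + 1) ∈ M :=
      (small_Fn hFN hM hκ (small_TC hM hκ 0 (inac_succ hM hκ hmκ))).1
    exact cardLe_trans hM hCol (cardLe_Col_P hM hm1 hCol (cardLe_succ_P hM hmM hmP)) hPm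

end Pool.Agent.Helper44.GP
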