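import Pool.Agent.Helper44.GP.PL
import Pool.Agent.Helper44.GP.B1
import Pool.Agent.Helper22.GP.FN

/-! # L1: starting the collapse later -/

universe u

namespace Pool.Agent.Helper44.GP

open ZFSet Pool.Agent.Helper66.SC Pool.Agent.Helper22.SC Pool.Agent.Helper66.GP

theorem col_sub_col {l l' k k' : Ordinal.{u}} (h : l' ≤ l) (h' : k ≤ k') :
    Col l k ⊆ Col l' k' := by
  intro p hp
  rw [Pool.Agent.Helper22.GP.mem_Col] at hp ⊢
  exact ⟨hp.1.trans (Pool.Agent.Helper22.GP.TC_mono h h'), hp.2⟩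

/-- L1. -/
theorem st_L1 (hABS : ST_ABS.{u}) : ST_L1.{u} := by
  intro M κ l m G hM hκ hlm hmκ hgd hG
  have hCOL := (Pool.Agent.Helper22.GP.st_COL.{u}).2
  have hm1κ := inac_succ hM.zf hκ hmκ
  have hmM := oz_mem_of_lt hM.zf hκ.mem hmκ
  have hm1M := oz_mem_of_lt hM.zf hκ.mem hm1κ
  have hmm1 : m ≤ m + 1 := (Order.lt_succ m).le
  have s1 : Split M (Col l κ) (Col l (m + 1)) (Col (m + 1) κ) :=
    (hCOL M ∅ l (m + 1) κ hM.zf hκ.mem (hlm.trans hmm1) hm1κ.le).1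
  have s2 : Split M (Col l (m + 1)) (Col l m) (Col m (m + 1)) :=
    (hCOL M ∅ l m (m + 1) hM.zf hm1M hlm hmm1).1
  have s3 : Split M (Col m κ) (Col m (m + 1)) (Col (m + 1) κ) :=
    (hCOL M ∅ m (m + 1) κ hM.zf hκ.mem hmm1 hm1κ.le).1
  obtain ⟨a1, a2, a3⟩ := (st_PL M _ _ _ hM s1).1 G hG
  obtain ⟨b1, b2, b3⟩ := (st_PL M _ _ _ hM s2).1 _ a1
  obtain ⟨g', hg', e⟩ := hABS M (Col l m) _ _ m hM s2.hQ b1 hmM hgd
    (cardLe_trans hM.zf s2.hQ (cardLe_subset hM.zf s2.hQ (col_sub_col (zero_le (a := l)) hmm1))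
      hgd.2.2) b2
  rw [b3] at e
  rw [← e] at a2
  obtain ⟨G', hG', -, -, e'⟩ := (st_PL M _ _ _ hM s3).2 g' _ hg' a2
  refine ⟨G', hG', ?_⟩
  rw [← e', e, a3]

end Pool.Agent.Helper44.GP
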