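import Pool.Agent.Helper44.GP.LX

/-! # LA: `L(X)[A]` is a model of ZF -/

universe u

namespace Pool.Agent.Helper44.GP

open ZFSet Pool.Agent.Helper66.SC Pool.Agent.Helper22.SC Pool.Agent.Helper99.SC
open Pool.Agent.Helper66.GP
open Pool.Agent.Helper66.SC (Cls)

variable {α : Type (u + 1)} [Ctx.{u} α]

/-- the elements of `A` as a predicate -/
abbrev PS (A : ZFSet.{u}) : Set ZFSet.{u} := {t | t ∈ A}

theorem lx_memM {M B : Set ZFSet.{u}} (hM : IsZF M B) {X A : ZFSet.{u}} (hX : X ∈ M)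
    (hA : A ∈ M) {o : Ordinal.{u}} (ho : oz o ∈ M) : LX X (PS A) o ∈ M := by
  have h := (ulx (C := CZ.{u}) (α := ZFSet.{u} × (ZFSet.{u} × ZFSet.{u}))
    (f := fun _ _ p => p.1) (g := fun _ _ p => p.2.1) (h := fun _ _ p => p.2.2)
    U.id.fst U.id.snd.fst U.id.snd.snd).closed hM (a := (X, (A, oz o)))
    (in_prod.2 ⟨in_zfset.2 hX, in_prod.2 ⟨in_zfset.2 hA, in_zfset.2 ho⟩⟩)
  have h' := in_zfset.1 h
  simpa [oz] using h'

theorem lxo_sub {M B : Set ZFSet.{u}} (hM : IsZF M B) {X A : ZFSet.{u}} (hX : X ∈ M)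
    (hA : A ∈ M) : LXO M X (PS A) ⊆ M := by
  rintro x ⟨o, ho, hx⟩
  exact hM.trans _ (lx_memM hM hX hA ho) _ hx

theorem lxo_trans {M : Set ZFSet.{u}} {X : ZFSet.{u}} (hT : X.IsTransitive)
    {A : Set ZFSet.{u}} : ∀ x ∈ LXO M X A, ∀ y ∈ x, y ∈ LXO M X A := by
  rintro x ⟨o, ho, hx⟩ y hy
  exact ⟨o, ho, LX_trans hT A o x hx y hy⟩

theorem lx_mem_lxo {M B : Set ZFSet.{u}} (hM : IsZF M B) {X : ZFSet.{u}} {A : Set ZFSet.{u}}
    {o : Ordinal.{u}} (ho : oz o ∈ M) : LX X A o ∈ LXO M X A :=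
  ⟨o + 1, IsZF.oz_succ hM ho, LX_mem X A (Order.lt_succ o)⟩

theorem oz_mem_lxo {M B : Set ZFSet.{u}} (hM : IsZF M B) {X : ZFSet.{u}} {A : Set ZFSet.{u}}
    (hT : X.IsTransitive) {o : Ordinal.{u}} (ho : oz o ∈ M) : oz o ∈ LXO M X A := by
  obtain ⟨ρ, hρ⟩ := exists_rho hT
  refine ⟨o + 1, IsZF.oz_succ hM ho, (oz_mem_LX hT A hρ (o + 1) o).2 ?_⟩
  exact (Order.lt_succ o).trans_le (le_add_self)

theorem mem_LXO {M B : Set ZFSet.{u}} (hM : IsZF M B) {X : ZFSet.{u}} {A : Set ZFSet.{u}}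
    {x : ZFSet.{u}} : x ∈ LXO M X A ↔ ∃ y ∈ M, x ∈ LX X A y.rank := by
  constructor
  · rintro ⟨o, ho, hx⟩
    exact ⟨oz o, ho, by simpa [oz] using hx⟩
  · rintro ⟨y, hy, hx⟩
    exact ⟨y.rank, hM.rk_mem hy, hx⟩

theorem urel_LXO {f g h : Set ZFSet.{u} → Set ZFSet.{u} → α → ZFSet.{u}}
    (hf : U CZ.{u} f) (hg : U CZ.{u} g) (hh : U CZ.{u} h) :
    Helper22.SC.URel CZ.{u} (fun M B a => h M B a ∈ LXO M (f M B a) (PS (g M B a))) := by
  have h0 : Helper22.SC.URel CZ.{u} (fun M B (a : α) => ∃ y ∈ M,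
      h M B a ∈ LX (f M B a) (PS (g M B a)) y.rank) := by
    refine Helper22.SC.URel.ex (R := fun M B (a : α) y =>
      h M B a ∈ LX (f M B a) (PS (g M B a)) y.rank) ?_
    refine Helper22.SC.URel.mem (hh.comp U.id.fst) ?_
    exact ulx (hf.comp U.id.fst) (hg.comp U.id.fst) U.id.snd
  exact h0.congr fun M B hM x _ => (mem_LXO (B := B) hM).symm

theorem urel_satX {k : ℕ} (φ : Fml k) :
    Helper22.SC.URel CZ.{u} (fun M _ (p : (ZFSet.{u} × ZFSet.{u}) × (Fin k → ZFSet.{u})) =>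
      Sat (LXO M p.1.1 (PS p.1.2)) (PS p.1.2) φ p.2) := by
  induction φ with
  | mem i j => exact Helper22.SC.URel.mem (U.id.snd.eval i) (U.id.snd.eval j)
  | eq i j => exact Helper22.SC.URel.eq (U.id.snd.eval i) (U.id.snd.eval j)
  | pr i => exact Helper22.SC.URel.mem (U.id.snd.eval i) U.id.fst.snd
  | neg φ ih => exact ih.not
  | and φ ψ ih1 ih2 => exact ih1.and ih2
  | @ex k φ ih =>
    have h1 : Helper22.SC.URel CZ.{u} (fun M B
        (p : (ZFSet.{u} × ZFSet.{u}) × (Fin k → ZFSet.{u})) => ∃ x ∈ M,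
        x ∈ LXO M p.1.1 (PS p.1.2) ∧
        Sat (LXO M p.1.1 (PS p.1.2)) (PS p.1.2) φ (Fin.cons x p.2)) := by
      refine Helper22.SC.URel.ex (R := fun M B
        (p : (ZFSet.{u} × ZFSet.{u}) × (Fin k → ZFSet.{u})) x => x ∈ LXO M p.1.1 (PS p.1.2) ∧
        Sat (LXO M p.1.1 (PS p.1.2)) (PS p.1.2) φ (Fin.cons x p.2)) ?_
      refine (urel_LXO U.id.fst.fst.fst U.id.fst.fst.snd U.id.snd).and ?_
      exact ih.comp (f := fun _ _ (p : ((ZFSet.{u} × ZFSet.{u}) × (Fin k → ZFSet.{u})) ×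
        ZFSet.{u}) => (p.1.1, (Fin.cons p.2 p.1.2 : Fin (k + 1) → ZFSet.{u})))
        (U.id.fst.fst.prodMk (U.finCons U.id.snd U.id.fst.snd))
    refine h1.congr fun M B hM p hp => ?_
    have hp1 := (in_prod.1 (in_prod.1 hp).1)
    constructor
    · rintro ⟨x, _, h2, h3⟩
      exact ⟨x, h2, h3⟩
    · rintro ⟨x, h2, h3⟩
      exact ⟨x, lxo_sub (B := B) hM (in_zfset.1 hp1.1) (in_zfset.1 hp1.2) h2, h2, h3⟩

/-! ### reflection -/

/-- `c` contains witnesses for all existential subformulas of `φ` with parameters in `b` -/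
def StX (M : Set ZFSet.{u}) (X A : ZFSet.{u}) : {k : ℕ} → Fml k → ZFSet.{u} → ZFSet.{u} → Prop
  | _, .mem _ _, _, _ => True
  | _, .eq _ _, _, _ => True
  | _, .pr _, _, _ => True
  | _, .neg φ, b, c => StX M X A φ b c
  | _, .and φ ψ, b, c => StX M X A φ b c ∧ StX M X A ψ b c
  | k, .ex φ, b, c => StX M X A φ b c ∧ ∀ v : Fin k → ZFSet.{u}, (∀ i, v i ∈ b) →
      (∃ x ∈ LXO M X (PS A), Sat (LXO M X (PS A)) (PS A) φ (Fin.cons x v)) →
        ∃ x ∈ c, Sat (LXO M X (PS A)) (PS A) φ (Fin.cons x v)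

theorem StX.mono {M : Set ZFSet.{u}} {X A : ZFSet.{u}} {k : ℕ} {φ : Fml k} {b c c' : ZFSet.{u}}
    (h : StX M X A φ b c) (hc : c ⊆ c') : StX M X A φ b c' := by
  induction φ with
  | mem i j => trivial
  | eq i j => trivial
  | pr i => trivial
  | neg φ ih => exact ih h
  | and φ ψ ih1 ih2 => exact ⟨ih1 h.1, ih2 h.2⟩
  | ex φ ih =>
    refine ⟨ih h.1, fun v hv hx => ?_⟩
    obtain ⟨x, hx1, hx2⟩ := h.2 v hv hx
    exact ⟨x, hc hx1, hx2⟩

/-- the Tarski-Vaught criterion -/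
theorem StX.refl {M : Set ZFSet.{u}} {X A : ZFSet.{u}} {k : ℕ} {φ : Fml k} {S : ZFSet.{u}}
    (hS : ∀ x ∈ S, x ∈ LXO M X (PS A)) (h : StX M X A φ S S) (v : Fin k → ZFSet.{u})
    (hv : ∀ i, v i ∈ S) : Sat (LXO M X (PS A)) (PS A) φ v ↔ Sat {z | z ∈ S} (PS A) φ v := by
  induction φ with
  | mem i j => exact Iff.rfl
  | eq i j => exact Iff.rfl
  | pr i => exact Iff.rfl
  | neg φ ih => exact not_congr (ih h v hv)
  | and φ ψ ih1 ih2 => exact and_congr (ih1 h.1 v hv) (ih2 h.2 v hv)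
  | ex φ ih =>
    constructor
    · intro hx
      obtain ⟨x, hx1, hx2⟩ := h.2 v hv hx
      exact ⟨x, hx1, (ih h.1 (Fin.cons x v) (cons_mem (M := {z | z ∈ S}) hx1 hv)).1 hx2⟩
    · rintro ⟨x, hx1, hx2⟩
      exact ⟨x, hS x hx1, (ih h.1 (Fin.cons x v) (cons_mem (M := {z | z ∈ S}) hx1 hv)).2 hx2⟩

theorem urel_stX {k : ℕ} (φ : Fml k) :
    Helper22.SC.URel CZ.{u} (fun M _ (p : (ZFSet.{u} × ZFSet.{u}) × (ZFSet.{u} × ZFSet.{u})) =>
      StX M p.1.1 p.1.2 φ p.2.1 p.2.2) := by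
  induction φ with
  | mem i j => exact Helper22.SC.URel.true'
  | eq i j => exact Helper22.SC.URel.true'
  | pr i => exact Helper22.SC.URel.true'
  | neg φ ih => exact ih
  | and φ ψ ih1 ih2 => exact ih1.and ih2
  | @ex k φ ih =>
    refine ih.and ?_
    refine URel.ballN (α := (ZFSet.{u} × ZFSet.{u}) × (ZFSet.{u} × ZFSet.{u})) k
      (f := fun _ _ p => p.2.1)
      (R := fun M _ p v => (∃ x ∈ LXO M p.1.1 (PS p.1.2),
        Sat (LXO M p.1.1 (PS p.1.2)) (PS p.1.2) φ (Fin.cons x v)) →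
        ∃ x ∈ p.2.2, Sat (LXO M p.1.1 (PS p.1.2)) (PS p.1.2) φ (Fin.cons x v)) U.id.snd.fst ?_
    refine Helper22.SC.URel.imp ?_ ?_
    · exact (urel_satX (.ex φ)).comp
        (f := fun _ _ (p : ((ZFSet.{u} × ZFSet.{u}) × (ZFSet.{u} × ZFSet.{u})) ×
          (Fin k → ZFSet.{u})) => (p.1.1, p.2)) (U.id.fst.fst.prodMk U.id.snd)
    · refine Helper22.SC.URel.bex (α := ((ZFSet.{u} × ZFSet.{u}) × (ZFSet.{u} × ZFSet.{u})) ×
        (Fin k → ZFSet.{u}))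
        (f := fun _ _ p => p.1.2.2) (R := fun M _ p x =>
          Sat (LXO M p.1.1.1 (PS p.1.1.2)) (PS p.1.1.2) φ (Fin.cons x p.2))
        U.id.fst.snd.snd ?_
      exact (urel_satX φ).comp
        (f := fun _ _ (p : (((ZFSet.{u} × ZFSet.{u}) × (ZFSet.{u} × ZFSet.{u})) ×
          (Fin k → ZFSet.{u})) × ZFSet.{u}) =>
          (p.1.1.1, (Fin.cons p.2 p.1.2 : Fin (k + 1) → ZFSet.{u})))
        (U.id.fst.fst.fst.prodMk (U.finCons U.id.snd U.id.fst.snd))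

theorem exists_stX {M B : Set ZFSet.{u}} (hM : IsZF M B) {X A : ZFSet.{u}} (hX : X ∈ M)
    (hA : A ∈ M) {k : ℕ} (φ : Fml k) {b : ZFSet.{u}} (hb : b ∈ M) :
    ∃ o : Ordinal.{u}, oz o ∈ M ∧ StX M X A φ b (LX X (PS A) o) := by
  have h0 : oz 0 ∈ M := by
    have := hM.empty_mem
    simpa [oz] using this
  induction φ with
  | mem i j => exact ⟨0, h0, trivial⟩
  | eq i j => exact ⟨0, h0, trivial⟩
  | pr i => exact ⟨0, h0, trivial⟩
  | neg φ ih => exact ih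
  | and φ ψ ih1 ih2 =>
    obtain ⟨o1, h1, h2⟩ := ih1
    obtain ⟨o2, h3, h4⟩ := ih2
    rcases le_total o1 o2 with h | h
    · exact ⟨o2, h3, h2.mono (LX_mono _ _ h), h4⟩
    · exact ⟨o1, h1, h2, h4.mono (LX_mono _ _ h)⟩
  | @ex k φ ih =>
    obtain ⟨o1, h1, h2⟩ := ih
    have hcol := collN (C := CZ.{u}) (α := ZFSet.{u} × ZFSet.{u}) k
      (R := fun M _ p v y => (∃ x ∈ LXO M p.1 (PS p.2),
        Sat (LXO M p.1 (PS p.2)) (PS p.2) φ (Fin.cons x v)) →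
        ∃ x ∈ LX p.1 (PS p.2) y.rank, Sat (LXO M p.1 (PS p.2)) (PS p.2) φ (Fin.cons x v)) (by
        refine Helper22.SC.URel.imp ?_ ?_
        · exact (urel_satX (.ex φ)).comp
            (f := fun _ _ (p : ((ZFSet.{u} × ZFSet.{u}) × (Fin k → ZFSet.{u})) × ZFSet.{u}) =>
              p.1) U.id.fst
        · refine Helper22.SC.URel.bex
            (α := ((ZFSet.{u} × ZFSet.{u}) × (Fin k → ZFSet.{u})) × ZFSet.{u})
            (f := fun _ _ p => LX p.1.1.1 (PS p.1.1.2) p.2.rank)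
            (R := fun M _ p x =>
              Sat (LXO M p.1.1.1 (PS p.1.1.2)) (PS p.1.1.2) φ (Fin.cons x p.1.2))
            (ulx U.id.fst.fst.fst U.id.fst.fst.snd U.id.snd) ?_
          exact (urel_satX φ).comp
            (f := fun _ _ (p : (((ZFSet.{u} × ZFSet.{u}) × (Fin k → ZFSet.{u})) × ZFSet.{u}) ×
              ZFSet.{u}) => (p.1.1.1, (Fin.cons p.2 p.1.1.2 : Fin (k + 1) → ZFSet.{u})))
            (U.id.fst.fst.fst.prodMk (U.finCons U.id.snd U.id.fst.fst.snd)))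
      (N := M) (A := B) hM (a := (X, A))
      (in_prod.2 ⟨in_zfset.2 hX, in_zfset.2 hA⟩) hb (by
        intro v _
        by_cases hex : ∃ x ∈ LXO M X (PS A), Sat (LXO M X (PS A)) (PS A) φ (Fin.cons x v)
        · obtain ⟨x, ⟨o, ho, hx⟩, hs⟩ := hex
          exact ⟨oz o, ho, fun _ => ⟨x, by simpa [oz] using hx, hs⟩⟩
        · exact ⟨oz 0, h0, fun h => absurd h hex⟩)
    obtain ⟨c, hc, hc'⟩ := hcol
    have hrk : oz c.rank ∈ M := hM.rk_mem hc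
    refine ⟨max o1 c.rank, ?_, h2.mono (LX_mono _ _ (le_max_left _ _)), ?_⟩
    · rcases le_total o1 c.rank with h | h
      · rw [max_eq_right h]; exact hrk
      · rw [max_eq_left h]; exact h1
    · intro v hv hx
      obtain ⟨y, hy, hy'⟩ := hc' v hv
      obtain ⟨x, hx1, hx2⟩ := hy' hx
      exact ⟨x, LX_mono _ _ ((rank_lt_of_mem hy).le.trans (le_max_right _ _)) hx1, hx2⟩

/-- the next ordinal -/
noncomputable def nxX (M : Set ZFSet.{u}) (X A : ZFSet.{u}) {k : ℕ} (φ : Fml k)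
    (o : Ordinal.{u}) : Ordinal.{u} :=
  sInf {c | o < c ∧ StX M X A φ (LX X (PS A) o) (LX X (PS A) c)}

theorem nxX_spec {M B : Set ZFSet.{u}} (hM : IsZF M B) {X A : ZFSet.{u}} (hX : X ∈ M)
    (hA : A ∈ M) {k : ℕ} (φ : Fml k) {o : Ordinal.{u}} (ho : oz o ∈ M) :
    o < nxX M X A φ o ∧ StX M X A φ (LX X (PS A) o) (LX X (PS A) (nxX M X A φ o)) ∧
      oz (nxX M X A φ o) ∈ M := by
  obtain ⟨c, hc, hs⟩ := exists_stX hM hX hA φ (lx_memM hM hX hA ho)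
  have hmax : max (o + 1) c ∈ {c | o < c ∧ StX M X A φ (LX X (PS A) o) (LX X (PS A) c)} :=
    ⟨(Order.lt_succ o).trans_le (le_max_left _ _), hs.mono (LX_mono _ _ (le_max_right _ _))⟩
  have h1 := csInf_mem (s := {c | o < c ∧ StX M X A φ (LX X (PS A) o) (LX X (PS A) c)})
    ⟨_, hmax⟩
  refine ⟨h1.1, h1.2, ?_⟩
  have hle : nxX M X A φ o ≤ max (o + 1) c := csInf_le' hmax
  refine IsZF.oz_le hM ?_ hle
  rcases le_total (o + 1) c with h | h
  · rw [max_eq_right h]; exact hc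
  · rw [max_eq_left h]; exact IsZF.oz_succ hM ho

theorem u_nxX {k : ℕ} (φ : Fml k) :
    U CZ.{u} (fun M _ (p : (ZFSet.{u} × ZFSet.{u}) × ZFSet.{u}) =>
      oz (nxX M p.1.1 p.1.2 φ p.2.rank)) := by
  refine U.of_graph (fun {M B} hM p hp => ?_) ?_
  · have h1 := in_prod.1 hp
    have h2 := in_prod.1 h1.1
    exact (nxX_spec (B := B) hM (in_zfset.1 h2.1) (in_zfset.1 h2.2) φ
      (hM.rk_mem (in_zfset.1 h1.2))).2.2
  have hS : Helper22.SC.URel CZ.{u} (fun M _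
      (p : ((ZFSet.{u} × ZFSet.{u}) × ZFSet.{u}) × ZFSet.{u}) =>
      StX M p.1.1.1 p.1.1.2 φ (LX p.1.1.1 (PS p.1.1.2) p.1.2.rank)
        (LX p.1.1.1 (PS p.1.1.2) p.2.rank)) := by
    refine (urel_stX φ).comp (f := fun _ _
      (p : ((ZFSet.{u} × ZFSet.{u}) × ZFSet.{u}) × ZFSet.{u}) =>
      (p.1.1, (LX p.1.1.1 (PS p.1.1.2) p.1.2.rank, LX p.1.1.1 (PS p.1.1.2) p.2.rank))) ?_
    exact U.id.fst.fst.prodMk ((ulx U.id.fst.fst.fst U.id.fst.fst.snd U.id.fst.snd).prodMk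
      (ulx U.id.fst.fst.fst U.id.fst.fst.snd U.id.snd))
  have h1 : Helper22.SC.URel CZ.{u} (fun M _
      (p : ((ZFSet.{u} × ZFSet.{u}) × ZFSet.{u}) × ZFSet.{u}) =>
      (p.2.IsOrdinal ∧ rk p.1.2 ∈ p.2 ∧
        StX M p.1.1.1 p.1.1.2 φ (LX p.1.1.1 (PS p.1.1.2) p.1.2.rank)
        (LX p.1.1.1 (PS p.1.1.2) p.2.rank)) ∧
      ∀ z ∈ p.2, ¬ (rk p.1.2 ∈ z ∧
        StX M p.1.1.1 p.1.1.2 φ (LX p.1.1.1 (PS p.1.1.2) p.1.2.rank)
        (LX p.1.1.1 (PS p.1.1.2) z.rank))) := by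
    refine Helper22.SC.URel.and (Helper22.SC.URel.and (Helper22.SC.URel.isOrdinal U.id.snd)
      (Helper22.SC.URel.and (Helper22.SC.URel.mem (U.rk U.id.fst.snd) U.id.snd) hS)) ?_
    refine Helper22.SC.URel.ball (R := fun M _
      (p : ((ZFSet.{u} × ZFSet.{u}) × ZFSet.{u}) × ZFSet.{u}) z =>
      ¬ (rk p.1.2 ∈ z ∧ StX M p.1.1.1 p.1.1.2 φ (LX p.1.1.1 (PS p.1.1.2) p.1.2.rank)
        (LX p.1.1.1 (PS p.1.1.2) z.rank))) U.id.snd ?_
    refine Helper22.SC.URel.not (Helper22.SC.URel.and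
      (Helper22.SC.URel.mem (U.rk U.id.fst.fst.snd) U.id.snd) ?_)
    exact hS.comp (f := fun _ _
      (p : (((ZFSet.{u} × ZFSet.{u}) × ZFSet.{u}) × ZFSet.{u}) × ZFSet.{u}) => (p.1.1, p.2))
      (U.id.fst.fst.prodMk U.id.snd)
  refine h1.congr fun M B hM p hp => ?_
  obtain ⟨⟨⟨X, A⟩, x⟩, y⟩ := p
  obtain ⟨hp1, hy⟩ := in_prod.1 hp
  obtain ⟨hp2, hx⟩ := in_prod.1 hp1
  obtain ⟨hX, hA⟩ := in_prod.1 hp2
  have hxr := hM.rk_mem (in_zfset.1 hx)
  obtain ⟨s1, s2, s3⟩ := nxX_spec (B := B) hM (in_zfset.1 hX) (in_zfset.1 hA) φ hxr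
  simp only
  constructor
  · rintro ⟨⟨h1, h2, h3⟩, h4⟩
    obtain ⟨c, rfl⟩ := ZFSet.isOrdinal_iff_mem_range_toZFSet.1 h1
    change rk x ∈ oz c at h2
    change StX M X A φ (LX X (PS A) x.rank) (LX X (PS A) (oz c).rank) at h3
    rw [rank_oz] at h3
    have h2' : x.rank < c := oz_mem_oz.1 h2
    change oz c = oz (nxX M X A φ x.rank)
    have hle : nxX M X A φ x.rank ≤ c := csInf_le' ⟨h2', h3⟩
    rcases hle.lt_or_eq with hlt | heq
    · exfalso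
      refine h4 (oz (nxX M X A φ x.rank)) (oz_mem_oz.2 hlt) ⟨oz_mem_oz.2 s1, ?_⟩
      rw [rank_oz]
      exact s2
    · rw [heq]
  · rintro rfl
    refine ⟨⟨isOrdinal_toZFSet _, oz_mem_oz.2 s1, ?_⟩, ?_⟩
    · rw [rank_oz]
      exact s2
    · rintro z hz ⟨h1, h2⟩
      obtain ⟨c, hc, rfl⟩ := Ordinal.mem_toZFSet_iff.1 hz
      change StX M X A φ (LX X (PS A) x.rank) (LX X (PS A) (oz c).rank) at h2
      rw [rank_oz] at h2
      have h1' : x.rank < c := oz_mem_oz.1 h1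
      exact absurd (csInf_le' (s := {c | x.rank < c ∧
        StX M X A φ (LX X (PS A) x.rank) (LX X (PS A) c)}) ⟨h1', h2⟩) (not_le.2 hc)

/-- iteration -/
noncomputable def itX (M : Set ZFSet.{u}) (X A : ZFSet.{u}) {k : ℕ} (φ : Fml k)
    (o : Ordinal.{u}) : ℕ → Ordinal.{u}
  | 0 => o
  | n + 1 => nxX M X A φ (itX M X A φ o n)

theorem u_itX {k : ℕ} (φ : Fml k) :
    U CZ.{u} (fun M _ (p : (ZFSet.{u} × ZFSet.{u}) × ZFSet.{u}) =>
      ZFSet.iUnion (fun n : ULift.{u} ℕ => oz (itX M p.1.1 p.1.2 φ p.2.rank n.down))) := by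
  refine U.natUnion (α := (ZFSet.{u} × ZFSet.{u}) × ZFSet.{u}) (z := fun _ _ p => rk p.2)
    (S := fun M _ p _ g => oz (nxX M p.1.1 p.1.2 φ g.rank))
    (H := fun M _ p n => oz (itX M p.1.1 p.1.2 φ p.2.rank n)) (U.rk U.id.snd) ?_ ?_ ?_
  · exact (u_nxX φ).comp (f := fun _ _ (p : (((ZFSet.{u} × ZFSet.{u}) × ZFSet.{u}) ×
      ZFSet.{u}) × ZFSet.{u}) => (p.1.1.1, p.2)) (U.id.fst.fst.fst.prodMk U.id.snd)
  · intro N B _ a _
    rfl
  · intro N B _ a _ n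
    rw [rank_oz]
    rfl

theorem reflX {M B : Set ZFSet.{u}} (hM : IsZF M B) {X A : ZFSet.{u}} (hX : X ∈ M)
    (hA : A ∈ M) (k : ℕ) (φ : Fml k) (o : Ordinal.{u}) (ho : oz o ∈ M) :
    ∃ a, o < a ∧ oz a ∈ M ∧ ∀ v : Fin k → ZFSet.{u}, (∀ i, v i ∈ LX X (PS A) a) →
    (Sat (LXO M X (PS A)) (PS A) φ v ↔ Sat {z | z ∈ LX X (PS A) a} (PS A) φ v) := by
  have hit : ∀ n, oz (itX M X A φ o n) ∈ M := by
    intro n
    induction n with
    | zero => exact ho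
    | succ n ih => exact (nxX_spec hM hX hA φ ih).2.2
  have hlt : ∀ n, itX M X A φ o n < itX M X A φ o (n + 1) :=
    fun n => (nxX_spec hM hX hA φ (hit n)).1
  have hmono : Monotone (itX M X A φ o) := monotone_nat_of_le_succ fun n => (hlt n).le
  have hst : ∀ n, StX M X A φ (LX X (PS A) (itX M X A φ o n))
      (LX X (PS A) (itX M X A φ o (n + 1))) :=
    fun n => (nxX_spec hM hX hA φ (hit n)).2.1
  set a : Ordinal.{u} := ⨆ n : ℕ, itX M X A φ o n with ha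
  have hlta : ∀ b, b < a ↔ ∃ n, b < itX M X A φ o n := by
    intro b
    rw [ha, Ordinal.lt_iSup_iff]
  have hna : ∀ n, itX M X A φ o n < a := fun n => (hlta _).2 ⟨n + 1, hlt n⟩
  have haM : oz a ∈ M := by
    have h1 := in_zfset.1 ((u_itX φ).closed hM (a := ((X, A), oz o))
      (in_prod.2 ⟨in_prod.2 ⟨in_zfset.2 hX, in_zfset.2 hA⟩, in_zfset.2 ho⟩))
    have h2 : ZFSet.iUnion (fun n : ULift.{u} ℕ => oz (itX M X A φ (oz o).rank n.down)) =
        oz a := by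
      ext x
      rw [mem_iUnion, rank_oz, Ordinal.mem_toZFSet_iff]
      constructor
      · rintro ⟨⟨n⟩, hn⟩
        obtain ⟨b, hb, rfl⟩ := Ordinal.mem_toZFSet_iff.1 hn
        exact ⟨b, (hlta b).2 ⟨n, hb⟩, rfl⟩
      · rintro ⟨b, hb, rfl⟩
        obtain ⟨n, hn⟩ := (hlta b).1 hb
        exact ⟨⟨n⟩, Ordinal.mem_toZFSet_iff.2 ⟨b, hn, rfl⟩⟩
    rwa [h2] at h1
  have hlim : Order.IsSuccLimit a := by
    refine Ordinal.isSuccLimit_iff.2 ⟨(hna 0).ne_bot, ?_⟩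
    rw [Order.isSuccPrelimit_iff_succ_lt]
    intro b hb
    obtain ⟨n, hn⟩ := (hlta b).1 hb
    exact (Order.succ_le_of_lt hn).trans_lt (hna n)
  have hLa : ∀ x, x ∈ LX X (PS A) a ↔ ∃ n, x ∈ LX X (PS A) (itX M X A φ o n) := by
    intro x
    rw [LX_limit hlim]
    constructor
    · rintro ⟨b, hb, hx⟩
      obtain ⟨n, hn⟩ := (hlta b).1 hb
      exact ⟨n, LX_mono _ _ hn.le hx⟩
    · rintro ⟨n, hx⟩
      exact ⟨_, hna n, hx⟩
  have hsup : ∀ {k : ℕ} (ψ : Fml k), (∀ n, StX M X A ψ (LX X (PS A) (itX M X A φ o n))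
      (LX X (PS A) (itX M X A φ o (n + 1)))) →
      StX M X A ψ (LX X (PS A) a) (LX X (PS A) a) := by
    intro k ψ hψ
    induction ψ with
    | mem i j => trivial
    | eq i j => trivial
    | pr i => trivial
    | neg ψ ih => exact ih hψ
    | and ψ χ ih1 ih2 => exact ⟨ih1 fun n => (hψ n).1, ih2 fun n => (hψ n).2⟩
    | @ex k ψ ih =>
      refine ⟨ih fun n => (hψ n).1, fun v hv hx => ?_⟩
      choose N hN using fun i => (hLa (v i)).1 (hv i)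
      obtain ⟨n, hn⟩ : ∃ n, ∀ i, N i ≤ n := by
        obtain ⟨n, hn⟩ := (Set.finite_range N).bddAbove
        exact ⟨n, fun i => hn ⟨i, rfl⟩⟩
      obtain ⟨x, hx1, hx2⟩ := (hψ n).2 v (fun i => LX_mono _ _ (hmono (hn i)) (hN i)) hx
      exact ⟨x, (hLa x).2 ⟨n + 1, hx1⟩, hx2⟩
  refine ⟨a, hna 0, haM, fun v hv => ?_⟩
  exact StX.refl (fun x hx => ⟨a, haM, hx⟩) (hsup φ hst) v hv

/-! ### the axioms -/

/-- collection with values in a level of `L(X)[A]` -/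
theorem collX {R : Set ZFSet.{u} → Set ZFSet.{u} → α → ZFSet.{u} → ZFSet.{u} → Prop}
    (hR : Helper22.SC.URel CZ.{u} (fun N A (p : (α × ZFSet.{u}) × ZFSet.{u}) =>
      R N A p.1.1 p.1.2 p.2))
    {M B : Set ZFSet.{u}} (hM : IsZF M B) {X A : ZFSet.{u}} (hX : X ∈ M) (hA : A ∈ M)
    {a : α} (ha : In M a) {d : ZFSet.{u}} (hd : d ∈ M)
    (h : ∀ x ∈ d, ∃ y ∈ LXO M X (PS A), R M B a x y) :
    ∃ o : Ordinal.{u}, oz o ∈ M ∧ ∀ x ∈ d, ∃ y ∈ LX X (PS A) o, R M B a x y := by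
  obtain ⟨c, hc, hc'⟩ := coll_of_urel (C := CZ.{u}) (α := (ZFSet.{u} × ZFSet.{u}) × α)
    (R := fun N A a x o => ∃ y ∈ LX a.1.1 (PS a.1.2) o.rank, R N A a.2 x y) (by
      refine Helper22.SC.URel.bex (α := (((ZFSet.{u} × ZFSet.{u}) × α) × ZFSet.{u}) × ZFSet.{u})
        (f := fun _ _ p => LX p.1.1.1.1 (PS p.1.1.1.2) p.2.rank)
        (R := fun N A p y => R N A p.1.1.2 p.1.2 y)
        (ulx U.id.fst.fst.fst.fst U.id.fst.fst.fst.snd U.id.snd) ?_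
      exact hR.comp (f := fun _ _ (p : ((((ZFSet.{u} × ZFSet.{u}) × α) × ZFSet.{u}) ×
        ZFSet.{u}) × ZFSet.{u}) => ((p.1.1.1.2, p.1.1.2), p.2))
        ((U.id.fst.fst.fst.snd.prodMk U.id.fst.fst.snd).prodMk U.id.snd))
    (N := M) (A := B) hM (a := ((X, A), a))
    (in_prod.2 ⟨in_prod.2 ⟨in_zfset.2 hX, in_zfset.2 hA⟩, ha⟩) hd (by
      intro x hx
      obtain ⟨y, ⟨o, ho, hy⟩, hxy⟩ := h x hx
      exact ⟨oz o, ho, y, by rw [rank_oz]; exact hy, hxy⟩)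
  refine ⟨c.rank, hM.rk_mem hc, fun x hx => ?_⟩
  obtain ⟨o, ho, y, hy, hxy⟩ := hc' x hx
  exact ⟨y, LX_mono _ _ (rank_lt_of_mem ho).le hy, hxy⟩

/-- finitely many elements are in a common level -/
theorem exists_levelX {M B : Set ZFSet.{u}} (hM : IsZF M B) {X : ZFSet.{u}}
    {A : Set ZFSet.{u}} {k : ℕ} (p : Fin k → ZFSet.{u})
    (hp : ∀ i, p i ∈ LXO M X A) : ∃ o : Ordinal.{u}, oz o ∈ M ∧ ∀ i, p i ∈ LX X A o := by
  induction k with
  | zero =>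
    refine ⟨0, ?_, fun i => i.elim0⟩
    have := hM.empty_mem
    simpa [oz] using this
  | succ k ih =>
    obtain ⟨o1, h1, h2⟩ := ih (Fin.tail p) (fun i => hp i.succ)
    obtain ⟨o2, h3, h4⟩ := hp 0
    refine ⟨max o1 o2, ?_, fun i => ?_⟩
    · rcases le_total o1 o2 with h | h
      · rw [max_eq_right h]; exact h3
      · rw [max_eq_left h]; exact h1
    · refine Fin.cases ?_ (fun j => ?_) i
      · exact LX_mono _ _ (le_max_right _ _) h4
      · exact LX_mono _ _ (le_max_left _ _) (h2 j)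

/-- separation in `L(X)[A]` -/
theorem sepX {M B : Set ZFSet.{u}} (hM : IsZF M B) {X A : ZFSet.{u}} (hX : X ∈ M)
    (hA : A ∈ M) (hT : X.IsTransitive) {k : ℕ} (φ : Fml (k + 1))
    (p : Fin k → ZFSet.{u}) (hp : ∀ i, p i ∈ LXO M X (PS A)) {a : ZFSet.{u}}
    (ha : a ∈ LXO M X (PS A)) :
    ∃ b ∈ LXO M X (PS A), ∀ x, x ∈ b ↔ x ∈ a ∧
      Sat (LXO M X (PS A)) (PS A) φ (Fin.cons x p) := by
  obtain ⟨o, ho, hop⟩ := exists_levelX hM (Fin.cons a p : Fin (k + 1) → ZFSet.{u})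
    (cons_mem ha hp)
  obtain ⟨β, hβ, hβM, hrefl⟩ := reflX hM hX hA (k + 1) φ o ho
  have haβ : a ∈ LX X (PS A) β := LX_mono _ _ hβ.le (hop 0)
  have hpβ : ∀ i, p i ∈ LX X (PS A) β := fun i => LX_mono _ _ hβ.le (hop i.succ)
  set b : ZFSet.{u} := ZFSet.sep (fun x => Sat (LXO M X (PS A)) (PS A) φ (Fin.cons x p)) a
    with hb
  refine ⟨b, ⟨β + 1, IsZF.oz_succ hM hβM, defSub_LX ?_⟩, fun x => by rw [hb, mem_sep]⟩
  rw [Pool.Agent.Helper25.SC.mem_DefSub]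
  refine ⟨fun x hx => LX_trans hT _ β a haβ x ((mem_sep.1 hx).1), k + 1,
    .and (.mem 0 1) (φ.rn (Fin.cons 0 (fun i => i.succ.succ))), Fin.cons a p,
    cons_mem (M := {z | z ∈ LX X (PS A) β}) haβ hpβ, ?_⟩
  intro x hx
  rw [hb, mem_sep]
  simp only [Sat, sat_rn]
  refine and_congr Iff.rfl ?_
  have e : (Fin.cons x (Fin.cons a p) : Fin (k + 1 + 1) → ZFSet.{u}) ∘
      (Fin.cons 0 (fun i => i.succ.succ) : Fin (k + 1) → Fin (k + 1 + 1)) =
      (Fin.cons x p : Fin (k + 1) → ZFSet.{u}) := by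
    funext j
    refine Fin.cases ?_ (fun j => ?_) j
    · rfl
    · rfl
  rw [e]
  exact hrefl _ (cons_mem (M := {z | z ∈ LX X (PS A) β}) hx hpβ)

theorem zfX {M B : Set ZFSet.{u}} (hM : IsZF M B) {X A : ZFSet.{u}} (hX : X ∈ M)
    (hA : A ∈ M) (hT : X.IsTransitive) : IsZF (LXO M X (PS A)) (PS A) := by
  have e1 := lxo_sub hM hX hA
  have e2 := lxo_trans (M := M) hT (A := PS A)
  have key : ∀ x ∈ LXO M X (PS A), ∀ y ∈ LXO M X (PS A), ∃ o : Ordinal.{u}, oz o ∈ M ∧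
      x ∈ LX X (PS A) o ∧ y ∈ LX X (PS A) o := by
    intro x hx y hy
    obtain ⟨o, ho, h⟩ := exists_levelX hM (k := 2) ![x, y] (by
      intro i
      fin_cases i
      · exact hx
      · exact hy)
    exact ⟨o, ho, h 0, h 1⟩
  refine ⟨e2, ?_, ?_, ?_, ?_, ?_, ?_⟩
  · have h := hM.omega
    rw [omega_eq] at h ⊢
    exact oz_mem_lxo hM hT h
  · intro x hx y hy
    obtain ⟨o, ho, hxo, hyo⟩ := key x hx y hy
    obtain ⟨b, hb, hb'⟩ := sepX hM hX hA hT (k := 2)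
      (.neg (.and (.neg (.eq 0 1)) (.neg (.eq 0 2)))) ![x, y] (by
      intro i
      fin_cases i
      · exact hx
      · exact hy) (lx_mem_lxo hM ho)
    have : ({x, y} : ZFSet.{u}) = b := by
      ext z
      rw [hb', ZFSet.mem_pair]
      simp only [Sat]
      change _ ↔ z ∈ LX X (PS A) o ∧ ¬ (¬ z = x ∧ ¬ z = y)
      constructor
      · rintro (rfl | rfl)
        · exact ⟨hxo, fun h => h.1 rfl⟩
        · exact ⟨hyo, fun h => h.2 rfl⟩
      · rintro ⟨_, h⟩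
        tauto
    rw [this]
    exact hb
  · intro x hx
    obtain ⟨o, ho, hxo, _⟩ := key x hx x hx
    obtain ⟨b, hb, hb'⟩ := sepX hM hX hA hT (k := 1) (.ex (.and (.mem 0 2) (.mem 1 0)))
      ![x] (by
      intro i
      fin_cases i
      exact hx) (lx_mem_lxo hM ho)
    have : (⋃₀ x : ZFSet.{u}) = b := by
      ext z
      rw [hb', ZFSet.mem_sUnion]
      simp only [Sat]
      change _ ↔ z ∈ LX X (PS A) o ∧ ∃ y ∈ LXO M X (PS A), y ∈ x ∧ z ∈ y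
      constructor
      · rintro ⟨y, hy, hz⟩
        exact ⟨LX_trans hT _ o y (LX_trans hT _ o x hxo y hy) z hz, y, e2 x hx y hy, hy, hz⟩
      · rintro ⟨_, y, _, hy, hz⟩
        exact ⟨y, hy, hz⟩
    rw [this]
    exact hb
  · intro x hx
    set d : ZFSet.{u} := ZFSet.sep (fun z => z ∈ LXO M X (PS A)) (Pow M x) with hd
    have hdM : d ∈ M := by
      have h := (U.sep (C := CZ.{u}) (α := (ZFSet.{u} × ZFSet.{u}) × ZFSet.{u})
        (f := fun N _ p => Pow N p.2)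
        (R := fun M _ p z => z ∈ LXO M p.1.1 (PS p.1.2)) (U.pow U.id.snd)
        (urel_LXO U.id.fst.fst.fst U.id.fst.fst.snd U.id.snd)).closed hM
        (a := ((X, A), x)) (in_prod.2 ⟨in_prod.2 ⟨in_zfset.2 hX, in_zfset.2 hA⟩,
          in_zfset.2 (e1 hx)⟩)
      exact in_zfset.1 h
    obtain ⟨o, ho, h⟩ := collX (α := PUnit.{u + 2}) (R := fun _ _ _ x y => x = y)
      (Helper22.SC.URel.eq U.id.fst.snd U.id.snd) hM hX hA (a := PUnit.unit)
      (fun i => i.elim0) hdM (fun z hz => ⟨z, (mem_sep.1 hz).2, rfl⟩)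
    obtain ⟨b, hb, hb'⟩ := sepX hM hX hA hT (k := 1)
      (.neg (.ex (.and (.mem 0 1) (.neg (.mem 0 2))))) ![x] (by
      intro i
      fin_cases i
      exact hx) (lx_mem_lxo hM ho)
    refine ⟨b, hb, fun z => ?_⟩
    rw [hb']
    simp only [Sat]
    change (z ∈ LX X (PS A) o ∧ ¬ ∃ w ∈ LXO M X (PS A), w ∈ z ∧ ¬ w ∈ x) ↔ _
    constructor
    · rintro ⟨h1, h2⟩
      have hzL : z ∈ LXO M X (PS A) := ⟨o, ho, h1⟩
      refine ⟨hzL, fun w hw => ?_⟩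
      by_contra hc
      exact h2 ⟨w, e2 z hzL w hw, hw, hc⟩
    · rintro ⟨h1, h2⟩
      have hzd : z ∈ d := mem_sep.2 ⟨mem_Pow.2 ⟨e1 h1, h2⟩, h1⟩
      obtain ⟨y, hy, rfl⟩ := h z hzd
      refine ⟨hy, ?_⟩
      rintro ⟨w, _, hw, hc⟩
      exact hc (h2 hw)
  · intro k φ p hp a ha
    exact sepX hM hX hA hT φ p hp ha
  · intro k φ p hp a ha hfun
    obtain ⟨o, ho, h⟩ := collX (α := (ZFSet.{u} × ZFSet.{u}) × (Fin k → ZFSet.{u}))
      (R := fun M _ q x y => Sat (LXO M q.1.1 (PS q.1.2)) (PS q.1.2) φ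
        (Fin.cons x (Fin.cons y q.2)))
      ((urel_satX φ).comp
        (f := fun _ _ (q : (((ZFSet.{u} × ZFSet.{u}) × (Fin k → ZFSet.{u})) × ZFSet.{u}) ×
          ZFSet.{u}) => (q.1.1.1,
          (Fin.cons q.1.2 (Fin.cons q.2 q.1.1.2) : Fin (k + 2) → ZFSet.{u})))
        (U.id.fst.fst.fst.prodMk (U.finCons U.id.fst.snd (U.finCons U.id.snd
          U.id.fst.fst.snd)))) hM hX hA (a := ((X, A), p))
      (in_prod.2 ⟨in_prod.2 ⟨in_zfset.2 hX, in_zfset.2 hA⟩, fun i => e1 (hp i)⟩) (e1 ha) (by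
        intro x hx
        obtain ⟨y, ⟨hy, hy1⟩, _⟩ := hfun x hx
        exact ⟨y, hy, hy1⟩)
    obtain ⟨b, hb, hb'⟩ := sepX hM hX hA hT (k := k + 1) (.ex (.and (.mem 0 2)
      (φ.rn (Fin.cons 0 (Fin.cons 1 (fun i => i.succ.succ.succ))))))
      (Fin.cons a p : Fin (k + 1) → ZFSet.{u}) (cons_mem ha hp) (lx_mem_lxo hM ho)
    refine ⟨b, hb, fun y => ?_⟩
    rw [hb']
    simp only [Sat, sat_rn]
    have e : ∀ x, (Fin.cons x (Fin.cons y (Fin.cons a p)) : Fin (k + 1 + 1 + 1) → ZFSet.{u}) ∘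
        (Fin.cons 0 (Fin.cons 1 (fun i => i.succ.succ.succ)) : Fin (k + 2) → Fin (k + 1 + 1 + 1))
        = (Fin.cons x (Fin.cons y p) : Fin (k + 2) → ZFSet.{u}) := by
      intro x
      funext j
      refine Fin.cases ?_ (fun j => ?_) j
      · rfl
      · refine Fin.cases ?_ (fun j => ?_) j
        · rfl
        · rfl
    constructor
    · rintro ⟨h1, x, hx, hx2, hx3⟩
      rw [e] at hx3
      exact ⟨⟨o, ho, h1⟩, x, hx2, hx3⟩
    · rintro ⟨h1, x, hx, hx1⟩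
      obtain ⟨y', hy', hy2⟩ := h x hx
      obtain ⟨y0, _, huni⟩ := hfun x hx
      have : y = y' := (huni y ⟨h1, hx1⟩).trans (huni y' ⟨⟨o, ho, hy'⟩, hy2⟩).symm
      subst this
      refine ⟨hy', x, e2 a ha x hx, hx, ?_⟩
      rw [e]
      exact hx1

/-! ### forgetting the predicate -/

/-- replace the predicate by falsity -/
def npr : {k : ℕ} → Fml k → Fml k
  | _, .mem i j => .mem i j
  | _, .eq i j => .eq i j
  | _, .pr i => .neg (.eq i i)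
  | _, .neg φ => .neg (npr φ)
  | _, .and φ ψ => .and (npr φ) (npr ψ)
  | _, .ex φ => .ex (npr φ)

theorem sat_npr (N A : Set ZFSet.{u}) {k : ℕ} (φ : Fml k) (v : Fin k → ZFSet.{u}) :
    Sat N A (npr φ) v ↔ Sat N ∅ φ v := by
  induction φ with
  | mem i j => exact Iff.rfl
  | eq i j => exact Iff.rfl
  | pr i => simp [npr, Sat]
  | neg φ ih => exact not_congr (ih v)
  | and φ ψ ih1 ih2 => exact and_congr (ih1 v) (ih2 v)
  | ex φ ih => exact exists_congr fun x => and_congr Iff.rfl (ih _)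

theorem zf_forget {N A : Set ZFSet.{u}} (h : IsZF N A) : IsZF N ∅ := by
  refine ⟨h.trans, h.omega, h.pair, h.sUnion, h.power, ?_, ?_⟩
  · intro k φ p hp a ha
    obtain ⟨b, hb, hb'⟩ := h.sep k (npr φ) p hp a ha
    exact ⟨b, hb, fun x => by rw [hb', sat_npr]⟩
  · intro k φ p hp a ha hfun
    obtain ⟨b, hb, hb'⟩ := h.repl k (npr φ) p hp a ha (by
      intro x hx
      simp only [sat_npr]
      exact hfun x hx)
    refine ⟨b, hb, fun y => ?_⟩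
    rw [hb']
    simp only [sat_npr]

/-! ### `X` and `A` -/

theorem pair_mem_defSub {S : Set ZFSet.{u}} {s x y : ZFSet.{u}} (hx : x ∈ s) (hy : y ∈ s) :
    ({x, y} : ZFSet.{u}) ∈ DefSub S s := by
  refine Pool.Agent.Helper25.SC.mem_DefSub.2 ⟨?_, 2,
    .neg (.and (.neg (.eq 0 1)) (.neg (.eq 0 2))), ![x, y], ?_, ?_⟩
  · intro z hz
    rcases ZFSet.mem_pair.1 hz with rfl | rfl
    · exact hx
    · exact hy
  · intro i
    fin_cases i
    · exact hx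
    · exact hy
  · intro a _
    rw [ZFSet.mem_pair]
    simp only [Sat]
    change _ ↔ ¬ (¬ a = x ∧ ¬ a = y)
    tauto

theorem zpair_mem_LX {X : ZFSet.{u}} {S : Set ZFSet.{u}} {x y : ZFSet.{u}} (hx : x ∈ X)
    (hy : y ∈ X) : ZFSet.pair x y ∈ LX X S (1 + 1) := by
  have hX0 : X ⊆ LX X S 0 := subset_LX X S 0
  have h1 : ({x} : ZFSet.{u}) ∈ LX X S 1 := by
    have h : ({x, x} : ZFSet.{u}) ∈ DefSub S (LX X S 0) := pair_mem_defSub (hX0 hx) (hX0 hx)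
    have h2 := defSub_LX h
    rw [zero_add] at h2
    have e : ({x, x} : ZFSet.{u}) = {x} := by
      ext z
      simp
    rwa [e] at h2
  have h2 : ({x, y} : ZFSet.{u}) ∈ LX X S 1 := by
    have h : ({x, y} : ZFSet.{u}) ∈ DefSub S (LX X S 0) := pair_mem_defSub (hX0 hx) (hX0 hy)
    have h2 := defSub_LX h
    rwa [zero_add] at h2
  exact defSub_LX (pair_mem_defSub h1 h2)

/-- LA. -/
theorem st_LA : ST_LA.{u} := by
  intro M X A hM hX hA hT hAX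
  have h0 : oz 0 ∈ M := by
    have := hM.empty_mem
    simpa [oz] using this
  have h1 : oz (0 + 1) ∈ M := IsZF.oz_succ hM h0
  have h2 : oz (0 + 1 + 1) ∈ M := IsZF.oz_succ hM h1
  have h3 : oz (0 + 1 + 1 + 1) ∈ M := IsZF.oz_succ hM h2
  refine ⟨lxo_sub hM hX hA, zf_forget (zfX hM hX hA hT), ?_, ?_⟩
  · refine ⟨0 + 1, h1, ?_⟩
    have h : X ∈ DefSub {t | t ∈ A} (LX X {t | t ∈ A} 0) := by
      have e : LX X {t | t ∈ A} 0 = X := by
        ext x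
        rw [mem_LX]
        constructor
        · rintro (h | ⟨a, ha, _⟩)
          · exact h
          · exact absurd ha (not_lt.2 (zero_le (a := a)))
        · exact Or.inl
      rw [e]
      exact Pool.Agent.Helper25.SC.self_mem_DefSub _ _
    exact defSub_LX h
  · refine ⟨0 + 1 + 1 + 1, h3, defSub_LX ?_⟩
    refine Pool.Agent.Helper25.SC.mem_DefSub.2 ⟨?_, 0, .pr 0, Fin.elim0, fun i => i.elim0, ?_⟩
    · intro t ht
      obtain ⟨x, hx, y, hy, rfl⟩ := ZFSet.mem_prod.1 (hAX ht)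
      have := zpair_mem_LX (S := {t | t ∈ A}) hx hy
      rwa [zero_add]
    · intro a _
      exact Iff.rfl

end Pool.Agent.Helper44.GP
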