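import Pool.Agent.Helper44.GP.LA

/-! # LB: the elements of `L(X)[A]` are definable -/

universe u

namespace Pool.Agent.Helper44.GP

open ZFSet Pool.Agent.Helper66.SC Pool.Agent.Helper22.SC Pool.Agent.Helper99.SC
open Pool.Agent.Helper66.GP
open Pool.Agent.Helper66.SC (Cls)

/-- unbounded quantifiers over tuples -/
theorem urel_exN {C : Cls.{u}} [ZCls C] (n : ℕ) : ∀ {α : Type (u + 1)} [Ctx.{u} α]
    {R : Set ZFSet.{u} → Set ZFSet.{u} → α → (Fin n → ZFSet.{u}) → Prop},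
    Helper22.SC.URel C (fun N A (p : α × (Fin n → ZFSet.{u})) => R N A p.1 p.2) →
    Helper22.SC.URel C (fun N A a => ∃ q : Fin n → ZFSet.{u}, (∀ i, q i ∈ N) ∧ R N A a q) := by
  induction n with
  | zero =>
    intro α _ R hR
    have h := hR.comp (f := fun _ _ (a : α) => (a, (Fin.elim0 : Fin 0 → ZFSet.{u})))
      (U.id.prodMk (U.finMk (fun i => i.elim0)))
    refine h.congr fun N A _ a _ => ?_
    constructor
    · intro h
      exact ⟨Fin.elim0, fun i => i.elim0, h⟩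
    · rintro ⟨q, _, h⟩
      have : q = Fin.elim0 := funext fun i => i.elim0
      rwa [this] at h
  | succ n ih =>
    intro α _ R hR
    have h1 : Helper22.SC.URel C (fun N A (p : α × ZFSet.{u}) =>
        ∃ q : Fin n → ZFSet.{u}, (∀ i, q i ∈ N) ∧ R N A p.1 (Fin.cons p.2 q)) := by
      refine ih (R := fun N A (p : α × ZFSet.{u}) q => R N A p.1 (Fin.cons p.2 q)) ?_
      exact hR.comp (f := fun _ _ (p : (α × ZFSet.{u}) × (Fin n → ZFSet.{u})) =>
        (p.1.1, (Fin.cons p.1.2 p.2 : Fin (n + 1) → ZFSet.{u})))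
        (U.id.fst.fst.prodMk (U.finCons U.id.fst.snd U.id.snd))
    have h2 := Helper22.SC.URel.ex (R := fun N A (a : α) x =>
      ∃ q : Fin n → ZFSet.{u}, (∀ i, q i ∈ N) ∧ R N A a (Fin.cons x q)) h1
    refine h2.congr fun N A _ a _ => ?_
    constructor
    · rintro ⟨x, hx, q, hq, h⟩
      refine ⟨Fin.cons x q, fun i => ?_, h⟩
      refine Fin.cases ?_ (fun j => ?_) i
      · exact hx
      · exact hq j
    · rintro ⟨q, hq, h⟩
      refine ⟨q 0, hq 0, Fin.tail q, fun i => hq i.succ, ?_⟩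
      rwa [Fin.cons_self_tail]

/-- satisfaction of a fixed formula in a set with a set as predicate -/
theorem urel_satSet {C : Cls.{u}} [ZCls C] {k : ℕ} (φ : Fml k) :
    Helper22.SC.URel C (fun _ _ (p : (ZFSet.{u} × ZFSet.{u}) × (Fin k → ZFSet.{u})) =>
      Sat {z | z ∈ p.1.1} (PS p.1.2) φ p.2) := by
  induction φ with
  | mem i j => exact Helper22.SC.URel.mem (U.id.snd.eval i) (U.id.snd.eval j)
  | eq i j => exact Helper22.SC.URel.eq (U.id.snd.eval i) (U.id.snd.eval j)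
  | pr i => exact Helper22.SC.URel.mem (U.id.snd.eval i) U.id.fst.snd
  | neg φ ih => exact ih.not
  | and φ ψ ih1 ih2 => exact ih1.and ih2
  | @ex k φ ih =>
    refine Helper22.SC.URel.bex (α := (ZFSet.{u} × ZFSet.{u}) × (Fin k → ZFSet.{u}))
      (f := fun _ _ p => p.1.1) (R := fun _ _ p x =>
        Sat {z | z ∈ p.1.1} (PS p.1.2) φ (Fin.cons x p.2)) U.id.fst.fst ?_
    exact ih.comp (f := fun _ _ (p : ((ZFSet.{u} × ZFSet.{u}) × (Fin k → ZFSet.{u})) ×
      ZFSet.{u}) => (p.1.1, (Fin.cons p.2 p.1.2 : Fin (k + 1) → ZFSet.{u})))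
      (U.id.fst.fst.prodMk (U.finCons U.id.snd U.id.fst.snd))

/-- the class consisting of one structure -/
def C1 (M : Set ZFSet.{u}) : Cls.{u} := fun N B => N = M ∧ B = ∅

theorem zcls_C1 {M : Set ZFSet.{u}} (hM : IsZF M ∅) : ZCls (C1 M) :=
  ⟨by rintro N B ⟨rfl, rfl⟩; exact hM⟩

/-- good parameters -/
def GPar (M : Set ZFSet.{u}) (X x : ZFSet.{u}) : Prop :=
  x ∈ X ∨ ∃ o : Ordinal.{u}, oz o ∈ M ∧ x = oz o

/-- definability of a class from good parameters -/
def Dfx (M : Set ZFSet.{u}) (X A : ZFSet.{u}) (S : ZFSet.{u} → Prop) : Prop :=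
  ∃ (k : ℕ) (v : Fin k → ZFSet.{u}) (R : ((ZFSet.{u} × ZFSet.{u}) × ZFSet.{u}) ×
    (Fin k → ZFSet.{u}) → Prop), (∀ i, GPar M X (v i)) ∧
    Helper22.SC.URel (C1 M) (fun _ _ p => R p) ∧ ∀ t ∈ M, (S t ↔ R (((X, A), t), v))

theorem gpar_mem {M : Set ZFSet.{u}} (hM : IsZF M ∅) {X x : ZFSet.{u}} (hX : X ∈ M)
    (h : GPar M X x) : x ∈ M := by
  rcases h with h | ⟨o, ho, rfl⟩
  · exact hM.trans _ hX _ h
  · exact ho

/-- finitely many definable sets form a definable tuple -/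
theorem dfx_tuple {M : Set ZFSet.{u}} (hM : IsZF M ∅) {X A : ZFSet.{u}} (hX : X ∈ M)
    (hA : A ∈ M) (n : ℕ) : ∀ p : Fin n → ZFSet.{u}, (∀ i, p i ∈ M) →
    (∀ i, Dfx M X A (fun t => t ∈ p i)) →
    ∃ (k : ℕ) (v : Fin k → ZFSet.{u}) (E : ((ZFSet.{u} × ZFSet.{u}) × (Fin n → ZFSet.{u})) ×
      (Fin k → ZFSet.{u}) → Prop), (∀ i, GPar M X (v i)) ∧
      Helper22.SC.URel (C1 M) (fun _ _ p => E p) ∧
      ∀ q : Fin n → ZFSet.{u}, (∀ i, q i ∈ M) → (E (((X, A), q), v) ↔ q = p) := by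
  have := zcls_C1 hM
  induction n with
  | zero =>
    intro p _ _
    refine ⟨0, Fin.elim0, fun _ => True, fun i => i.elim0, Helper22.SC.URel.true', ?_⟩
    intro q _
    exact ⟨fun _ => funext fun i => i.elim0, fun _ => trivial⟩
  | succ n ih =>
    intro p hp hd
    obtain ⟨k, v, E, hv, hE, hE'⟩ := ih (Fin.tail p) (fun i => hp i.succ) (fun i => hd i.succ)
    obtain ⟨k0, v0, R0, hv0, hR0, hR0'⟩ := hd 0
    refine ⟨k + k0, Fin.append v v0, fun a =>
      E ((a.1.1, Fin.tail a.1.2), fun i => a.2 (Fin.castAdd k0 i)) ∧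
      ¬ ∃ s, s ∈ M ∧ ¬ (s ∈ a.1.2 0 ↔ R0 ((a.1.1, s), fun i => a.2 (Fin.natAdd k i))),
      ?_, ?_, ?_⟩
    · intro i
      refine Fin.addCases (fun j => ?_) (fun j => ?_) i
      · rw [Fin.append_left]; exact hv j
      · rw [Fin.append_right]; exact hv0 j
    · refine Helper22.SC.URel.and ?_ (Helper22.SC.URel.not ?_)
      · exact hE.comp (f := fun _ _ (a : ((ZFSet.{u} × ZFSet.{u}) × (Fin (n + 1) → ZFSet.{u})) ×
          (Fin (k + k0) → ZFSet.{u})) =>
          ((a.1.1, Fin.tail a.1.2), fun i => a.2 (Fin.castAdd k0 i)))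
          ((U.id.fst.fst.prodMk (U.finTail U.id.fst.snd)).prodMk
            (U.finMk (fun i => U.id.snd.eval _)))
      · have h1 := Helper22.SC.URel.ex (C := C1 M)
          (R := fun _ _ (a : ((ZFSet.{u} × ZFSet.{u}) × (Fin (n + 1) → ZFSet.{u})) ×
          (Fin (k + k0) → ZFSet.{u})) s =>
            ¬ (s ∈ a.1.2 0 ↔ R0 ((a.1.1, s), fun i => a.2 (Fin.natAdd k i)))) (by
          refine Helper22.SC.URel.not (Helper22.SC.URel.iff ?_ ?_)
          · exact Helper22.SC.URel.mem U.id.snd (U.id.fst.fst.snd.eval 0)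
          · exact hR0.comp (f := fun _ _ (a : (((ZFSet.{u} × ZFSet.{u}) ×
              (Fin (n + 1) → ZFSet.{u})) × (Fin (k + k0) → ZFSet.{u})) × ZFSet.{u}) =>
              ((a.1.1.1, a.2), fun i => a.1.2 (Fin.natAdd k i)))
              ((U.id.fst.fst.fst.prodMk U.id.snd).prodMk
                (U.finMk (fun i => U.id.fst.snd.eval _))))
        refine h1.congr ?_
        rintro N B ⟨rfl, rfl⟩ a _
        exact Iff.rfl
    · intro q hq
      have e1 : (fun i => Fin.append v v0 (Fin.castAdd k0 i)) = v := by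
        funext i; rw [Fin.append_left]
      have e2 : (fun i => Fin.append v v0 (Fin.natAdd k i)) = v0 := by
        funext i; rw [Fin.append_right]
      simp only
      rw [e1, e2, hE' (Fin.tail q) (fun i => hq i.succ)]
      constructor
      · rintro ⟨h1, h2⟩
        have h3 : q 0 = p 0 := by
          ext s
          by_cases hs : s ∈ M
          · have h4 : s ∈ q 0 ↔ R0 (((X, A), s), v0) := by
              by_contra hc
              exact h2 ⟨s, hs, hc⟩
            rw [h4, ← hR0' s hs]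
          · constructor
            · intro h; exact absurd (hM.trans _ (hq 0) _ h) hs
            · intro h; exact absurd (hM.trans _ (hp 0) _ h) hs
        rw [← Fin.cons_self_tail q, ← Fin.cons_self_tail p, h1, h3]
      · rintro rfl
        refine ⟨rfl, ?_⟩
        rintro ⟨s, hs, hc⟩
        exact hc (hR0' s hs)

theorem dfx_LX {M : Set ZFSet.{u}} (hM : IsZF M ∅) {X A : ZFSet.{u}} (hX : X ∈ M)
    (hA : A ∈ M) (hT : X.IsTransitive) (o : Ordinal.{u}) : oz o ∈ M →
    ∀ y ∈ LX X (PS A) o, Dfx M X A (fun t => t ∈ y) := by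
  have := zcls_C1 hM
  induction o using WellFoundedLT.induction with
  | ind o ih =>
    intro ho y hy
    rcases mem_LX.1 hy with h | ⟨a, ha, h⟩
    · refine ⟨1, fun _ => y, fun p => p.1.2 ∈ p.2 0, fun _ => Or.inl h, ?_, fun t _ => Iff.rfl⟩
      exact Helper22.SC.URel.mem U.id.fst.snd (U.id.snd.eval 0)
    · have haM : oz a ∈ M := IsZF.oz_lt hM ho ha
      obtain ⟨hys, n, ψ, p, hp, hψ⟩ := Pool.Agent.Helper25.SC.mem_DefSub.1 h
      have hpM : ∀ i, p i ∈ M := fun i => hM.trans _ (lx_memM hM hX hA haM) _ (hp i)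
      obtain ⟨k, v, E, hv, hE, hE'⟩ := dfx_tuple hM hX hA n p hpM
        (fun i => ih a ha haM (p i) (hp i))
      refine ⟨k + 1, Fin.cons (oz a) v, fun b => ∃ q : Fin n → ZFSet.{u}, (∀ i, q i ∈ M) ∧
        (E ((b.1.1, q), Fin.tail b.2) ∧ b.1.2 ∈ LX b.1.1.1 (PS b.1.1.2) (b.2 0).rank ∧
          Sat {z | z ∈ LX b.1.1.1 (PS b.1.1.2) (b.2 0).rank} (PS b.1.1.2) ψ
            (Fin.cons b.1.2 q)), ?_, ?_, ?_⟩
      · intro i
        refine Fin.cases ?_ (fun j => ?_) i
        · exact Or.inr ⟨a, haM, rfl⟩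
        · exact hv j
      · have h1 := urel_exN (C := C1 M) n
          (α := ((ZFSet.{u} × ZFSet.{u}) × ZFSet.{u}) × (Fin (k + 1) → ZFSet.{u}))
          (R := fun _ _ b q => E ((b.1.1, q), Fin.tail b.2) ∧
            b.1.2 ∈ LX b.1.1.1 (PS b.1.1.2) (b.2 0).rank ∧
            Sat {z | z ∈ LX b.1.1.1 (PS b.1.1.2) (b.2 0).rank} (PS b.1.1.2) ψ
            (Fin.cons b.1.2 q)) (by
          have hL : U (C1 M) (fun _ _ (b : (((ZFSet.{u} × ZFSet.{u}) × ZFSet.{u}) ×
              (Fin (k + 1) → ZFSet.{u})) × (Fin n → ZFSet.{u})) =>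
              LX b.1.1.1.1 (PS b.1.1.1.2) (b.1.2 0).rank) :=
            ulx U.id.fst.fst.fst.fst U.id.fst.fst.fst.snd (U.id.fst.snd.eval 0)
          refine Helper22.SC.URel.and ?_ (Helper22.SC.URel.and ?_ ?_)
          · exact hE.comp (f := fun _ _ (b : (((ZFSet.{u} × ZFSet.{u}) × ZFSet.{u}) ×
              (Fin (k + 1) → ZFSet.{u})) × (Fin n → ZFSet.{u})) =>
              ((b.1.1.1, b.2), Fin.tail b.1.2))
              ((U.id.fst.fst.fst.prodMk U.id.snd).prodMk (U.finTail U.id.fst.snd))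
          · exact Helper22.SC.URel.mem U.id.fst.fst.snd hL
          · exact (urel_satSet ψ).comp (f := fun _ _ (b : (((ZFSet.{u} × ZFSet.{u}) ×
              ZFSet.{u}) × (Fin (k + 1) → ZFSet.{u})) × (Fin n → ZFSet.{u})) =>
              ((LX b.1.1.1.1 (PS b.1.1.1.2) (b.1.2 0).rank, b.1.1.1.2),
                (Fin.cons b.1.1.2 b.2 : Fin (n + 1) → ZFSet.{u})))
              ((hL.prodMk U.id.fst.fst.fst.snd).prodMk
                (U.finCons U.id.fst.fst.snd U.id.snd)))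
        refine h1.congr ?_
        rintro N B ⟨rfl, rfl⟩ b _
        exact Iff.rfl
      · intro t ht
        simp only [Fin.tail_cons, Fin.cons_zero]
        rw [rank_oz]
        constructor
        · intro hty
          exact ⟨p, hpM, (hE' p hpM).2 rfl, hys hty, (hψ t (hys hty)).1 hty⟩
        · rintro ⟨q, hq, h1, h2, h3⟩
          have := (hE' q hq).1 h1
          subst this
          exact (hψ t h2).2 h3

/-- LB. -/
theorem st_LB : ST_LB.{u} := by
  intro M X A hM hX hA hT hAX y hy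
  obtain ⟨o, ho, hyo⟩ := hy
  obtain ⟨k, v, R, hv, hR, hR'⟩ := dfx_LX hM hX hA hT o ho y hyo
  have := zcls_C1 hM
  have h1 : Helper22.SC.URel (C1 M) (fun _ _ (w : Fin (k + 3) → ZFSet.{u}) =>
      R (((w 1, w 2), w 0), Fin.tail (Fin.tail (Fin.tail w)))) :=
    hR.comp (f := fun _ _ (w : Fin (k + 3) → ZFSet.{u}) =>
      (((w 1, w 2), w 0), Fin.tail (Fin.tail (Fin.tail w))))
      ((((U.id.eval 1).prodMk (U.id.eval 2)).prodMk (U.id.eval 0)).prodMk
        (U.finTail (U.finTail (U.finTail U.id))))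
  obtain ⟨φ, hφ⟩ := h1
  refine ⟨k, φ, v, hv, fun t ht => ?_⟩
  refine (hR' t ht).trans ?_
  exact hφ M ∅ ⟨rfl, rfl⟩ (Fin.cons t (Fin.cons X (Fin.cons A v))) (cons_mem ht (cons_mem hX
    (cons_mem hA (fun i => gpar_mem hM hX (hv i)))))

end Pool.Agent.Helper44.GP
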