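import Pool.Agent.Helper66.GP.Defs
import Pool.Agent.Helper99.SC.D2

/-! # The hierarchy `L(X)[A]` -/

universe u

namespace Pool.Agent.Helper44.GP

open ZFSet Pool.Agent.Helper66.SC Pool.Agent.Helper22.SC Pool.Agent.Helper99.SC
open Pool.Agent.Helper66.GP
open Pool.Agent.Helper66.SC (Cls)

variable {C : Cls.{u}}
variable {α β γ δ : Type (u + 1)} [Ctx.{u} α] [Ctx.{u} β] [Ctx.{u} γ] [Ctx.{u} δ]

theorem mem_LX {X : ZFSet.{u}} {A : Set ZFSet.{u}} {o : Ordinal.{u}} {x : ZFSet.{u}} :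
    x ∈ LX X A o ↔ x ∈ X ∨ ∃ a < o, x ∈ DefSub A (LX X A a) := by
  rw [LX, mem_union, mem_iUnion]
  refine or_congr Iff.rfl ?_
  constructor
  · rintro ⟨⟨a, ha⟩, h⟩
    exact ⟨a, ha, h⟩
  · rintro ⟨a, ha, h⟩
    exact ⟨⟨a, ha⟩, h⟩

theorem LX_mono (X : ZFSet.{u}) (A : Set ZFSet.{u}) {o o' : Ordinal.{u}} (h : o ≤ o') :
    LX X A o ⊆ LX X A o' := by
  intro x hx
  rw [mem_LX] at hx ⊢
  rcases hx with h1 | ⟨a, ha, h1⟩
  · exact Or.inl h1
  · exact Or.inr ⟨a, ha.trans_le h, h1⟩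

theorem subset_LX (X : ZFSet.{u}) (A : Set ZFSet.{u}) (o : Ordinal.{u}) : X ⊆ LX X A o :=
  fun _ hx => mem_LX.2 (Or.inl hx)

theorem LX_trans {X : ZFSet.{u}} (hX : X.IsTransitive) (A : Set ZFSet.{u}) (o : Ordinal.{u}) :
    ∀ x ∈ LX X A o, ∀ y ∈ x, y ∈ LX X A o := by
  intro x hx y hy
  rcases mem_LX.1 hx with h1 | ⟨a, ha, h1⟩
  · exact mem_LX.2 (Or.inl (hX.mem_trans hy h1))
  · exact LX_mono X A ha.le ((Pool.Agent.Helper25.SC.mem_DefSub.1 h1).1 hy)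

theorem LX_mem (X : ZFSet.{u}) (A : Set ZFSet.{u}) {o o' : Ordinal.{u}} (h : o < o') :
    LX X A o ∈ LX X A o' :=
  mem_LX.2 (Or.inr ⟨o, h, Pool.Agent.Helper25.SC.self_mem_DefSub A _⟩)

theorem defSub_LX {X : ZFSet.{u}} {A : Set ZFSet.{u}} {o : Ordinal.{u}} {x : ZFSet.{u}}
    (h : x ∈ DefSub A (LX X A o)) : x ∈ LX X A (o + 1) :=
  mem_LX.2 (Or.inr ⟨o, Order.lt_add_one_iff.2 le_rfl, h⟩)

theorem LX_limit {X : ZFSet.{u}} {A : Set ZFSet.{u}} {o : Ordinal.{u}}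
    (ho : Order.IsSuccLimit o) (x : ZFSet.{u}) : x ∈ LX X A o ↔ ∃ a < o, x ∈ LX X A a := by
  constructor
  · intro hx
    rcases mem_LX.1 hx with h1 | ⟨a, ha, h1⟩
    · have h0 : (0 : Ordinal.{u}) < o := by
        have := ho.ne_bot
        exact pos_iff_ne_zero.2 this
      exact ⟨0, h0, mem_LX.2 (Or.inl h1)⟩
    · exact ⟨a + 1, ho.add_one_lt ha, defSub_LX h1⟩
  · rintro ⟨a, ha, hx⟩
    exact LX_mono X A ha.le hx

/-- the ordinals of `X` -/
theorem exists_rho {X : ZFSet.{u}} (hX : X.IsTransitive) :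
    ∃ ρ : Ordinal.{u}, ∀ a, oz a ∈ X ↔ a < ρ := by
  have h : (X.sep (fun x => x.IsOrdinal)).IsOrdinal := by
    refine ⟨fun x hx y hy => ?_, fun {y z w} hyz hzw hw => ?_⟩
    · rw [mem_sep] at hx ⊢
      exact ⟨hX.mem_trans hy hx.1, hx.2.mem hy⟩
    · rw [mem_sep] at hw
      exact hw.2.isTransitive.mem_trans hyz hzw
  obtain ⟨ρ, hρ⟩ := ZFSet.isOrdinal_iff_mem_range_toZFSet.1 h
  refine ⟨ρ, fun a => ?_⟩
  rw [← Ordinal.toZFSet_mem_toZFSet_iff (a := a) (b := ρ), hρ, mem_sep]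
  exact ⟨fun h => ⟨h, isOrdinal_toZFSet a⟩, fun h => h.1⟩

theorem oz_mem_LX {X : ZFSet.{u}} (hX : X.IsTransitive) (A : Set ZFSet.{u}) {ρ : Ordinal.{u}}
    (hρ : ∀ a, oz a ∈ X ↔ a < ρ) (o : Ordinal.{u}) : ∀ a, oz a ∈ LX X A o ↔ a < ρ + o := by
  induction o using WellFoundedLT.induction with
  | ind o ih =>
    intro a
    constructor
    · intro h
      rcases mem_LX.1 h with h1 | ⟨b, hb, h1⟩
      · exact ((hρ a).1 h1).trans_le le_self_add
      · refine lt_of_le_of_lt ?_ (add_lt_add_right hb ρ)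
        by_contra hab
        push Not at hab
        have h2 : oz (ρ + b) ∈ oz a := Ordinal.toZFSet_mem_toZFSet_iff.2 hab
        exact absurd ((ih b hb (ρ + b)).1 ((Pool.Agent.Helper25.SC.mem_DefSub.1 h1).1 h2))
          (lt_irrefl _)
    · intro h
      rcases lt_or_ge a ρ with h1 | h1
      · exact mem_LX.2 (Or.inl ((hρ a).2 h1))
      · obtain ⟨b, rfl⟩ : ∃ b, a = ρ + b := ⟨a - ρ, (Ordinal.add_sub_cancel_of_le h1).symm⟩
        have hb : b < o := (add_lt_add_iff_left ρ).1 h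
        refine mem_LX.2 (Or.inr ⟨b, hb, ?_⟩)
        obtain ⟨φ, hφ⟩ := Pool.Agent.Helper25.SC.ud_ord.{u}
        have key : ∀ x, x ∈ oz (ρ + b) ↔ x ∈ LX X A b ∧ x.IsOrdinal := by
          intro x
          constructor
          · intro hx
            obtain ⟨c, hc, rfl⟩ := Ordinal.mem_toZFSet_iff.1 hx
            exact ⟨(ih b hb c).2 hc, ZFSet.isOrdinal_toZFSet c⟩
          · rintro ⟨hx, ho⟩
            obtain ⟨c, rfl⟩ := ZFSet.isOrdinal_iff_mem_range_toZFSet.1 ho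
            exact Ordinal.toZFSet_mem_toZFSet_iff.2 ((ih b hb c).1 hx)
        refine Pool.Agent.Helper25.SC.mem_DefSub.2 ⟨fun x hx => ((key x).1 hx).1, 0, φ, Fin.elim0,
          fun i => i.elim0, ?_⟩
        intro x hx
        rw [key x]
        have := hφ {z | z ∈ LX X A b} A (fun y hy z hz => LX_trans hX A b y hy z hz)
          (Fin.cons x Fin.elim0) (by
          intro i
          refine Fin.cases ?_ (fun j => j.elim0) i
          exact hx)
        rw [this]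
        exact ⟨fun h => h.2, fun h => ⟨hx, h⟩⟩

/-! ### uniform definability -/

/-- the recursion on arbitrary sets -/
noncomputable def lxF (X : ZFSet.{u}) (A : Set ZFSet.{u}) (x : ZFSet.{u}) : ZFSet.{u} :=
  rrec (fun _ g => X ∪ ⋃₀ (Pool.Agent.Helper66.SC.img g (fun z => DefSub A (psnd z))))
    (fun x => x) x

theorem lxF_eq (X : ZFSet.{u}) (A : Set ZFSet.{u}) (x : ZFSet.{u}) :
    lxF X A x = X ∪ ⋃₀ (Pool.Agent.Helper66.SC.img x (fun y => DefSub A (lxF X A y))) := by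
  unfold lxF
  rw [rrec_eq (fun y hy => rank_lt_of_mem hy)]
  rw [img_gr (h := fun t => DefSub A t)]

theorem lxF_toZFSet (X : ZFSet.{u}) (A : Set ZFSet.{u}) (o : Ordinal.{u}) :
    lxF X A o.toZFSet = LX X A o := by
  induction o using WellFoundedLT.induction with
  | ind o ih =>
    ext x
    rw [lxF_eq, mem_LX, mem_union, mem_sUnion]
    refine or_congr Iff.rfl ?_
    constructor
    · rintro ⟨w, hw, hx⟩
      obtain ⟨y, hy, rfl⟩ := mem_img.1 hw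
      obtain ⟨a, ha, rfl⟩ := Ordinal.mem_toZFSet_iff.1 hy
      rw [ih a ha] at hx
      exact ⟨a, ha, hx⟩
    · rintro ⟨a, ha, hx⟩
      refine ⟨_, mem_img.2 ⟨a.toZFSet, Ordinal.mem_toZFSet_iff.2 ⟨a, ha, rfl⟩, rfl⟩, ?_⟩
      rw [ih a ha]
      exact hx

theorem ulxF [ZCls C] {f g : Set ZFSet.{u} → Set ZFSet.{u} → α → ZFSet.{u}}
    {B : Set ZFSet.{u} → Set ZFSet.{u} → α → Set ZFSet.{u}} (hf : U C f) (hg : U C g)
    (hB : Pool.Agent.Helper22.SC.URel C (fun N A (p : α × ZFSet.{u}) => p.2 ∈ B N A p.1)) :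
    U C (fun N A a => lxF (g N A a) (B N A a) (f N A a)) := by
  unfold lxF
  refine U.rrec (F := fun N A a _ gg => g N A a ∪ ZFSet.sUnion (Pool.Agent.Helper66.SC.img gg
    (fun z => DefSub (B N A a) (Pool.Agent.Helper22.SC.psnd z)))) (P := fun _ _ _ x => x) ?_
    U.id.snd (fun _ _ _ x _ y hy => rank_lt_of_mem hy) hf
  refine U.union (hg.comp (f := fun _ _ (p : (α × ZFSet.{u}) × ZFSet.{u}) => p.1.1)
    U.id.fst.fst) ?_
  refine U.sUnion (U.img U.id.snd ?_)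
  refine U.defSub (B := fun N A (p : ((α × ZFSet.{u}) × ZFSet.{u}) × ZFSet.{u}) =>
    B N A p.1.1.1) (U.psnd U.id.snd) ?_
  exact hB.comp (f := fun _ _ (p : (((α × ZFSet.{u}) × ZFSet.{u}) × ZFSet.{u}) × ZFSet.{u}) =>
    (p.1.1.1.1, p.2)) (U.id.fst.fst.fst.fst.prodMk U.id.snd)

/-- the levels, for a set `A` -/
theorem ulx [ZCls C] {f g h : Set ZFSet.{u} → Set ZFSet.{u} → α → ZFSet.{u}} (hf : U C f)
    (hg : U C g) (hh : U C h) :
    U C (fun N A a => LX (f N A a) {t | t ∈ g N A a} (h N A a).rank) := by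
  refine (ulxF (B := fun N A a => {t | t ∈ g N A a}) (U.rk hh) hf ?_).congr ?_
  · exact Pool.Agent.Helper22.SC.URel.mem U.id.snd (hg.comp U.id.fst)
  · intro N A _ a _
    exact lxF_toZFSet _ _ _

end Pool.Agent.Helper44.GP
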