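import Pool.Agent.Helper76.GP.VO

/-! # P1: uniform definability of the poset -/

universe u

namespace Pool.Agent.Helper44.GP

open ZFSet Pool.Agent.Helper66.SC Pool.Agent.Helper22.SC Pool.Agent.Helper66.GP
open Pool.Agent.Helper76.GP (mem_Rl)

/-! ### parity -/

open Classical in
/-- the parity of a natural number as a set -/
noncomputable def pty (n : ℕ) : ZFSet.{u} := if Odd n then {∅} else ∅

theorem sing_ne : ({∅} : ZFSet.{u}) ≠ ∅ := by
  intro h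
  have : (∅ : ZFSet.{u}) ∈ ({∅} : ZFSet.{u}) := ZFSet.mem_singleton.2 rfl
  rw [h] at this
  exact notMem_empty _ this

open Classical in
theorem pty_succ (n : ℕ) : pty.{u} (n + 1) = if pty.{u} n = ∅ then {∅} else ∅ := by
  unfold pty
  by_cases h : Odd n
  · rw [if_pos h, if_neg sing_ne, if_neg]
    rw [Nat.odd_add_one]
    exact fun h' => h' h
  · rw [if_neg h, if_pos rfl, if_pos]
    rw [Nat.odd_add_one]
    exact h

/-- the set of odd numbers -/
noncomputable def oddS : ZFSet.{u} := ZFSet.omega.sep (fun k => ∃ m : ℕ, k = nat m ∧ Odd m)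

open Classical in
theorem u_odd {α : Type (u + 1)} [Ctx.{u} α] : U KZ.{u} (fun _ _ (_ : α) => oddS.{u}) := by
  have key := U.natrec (C := KZ.{u}) (α := ZFSet.{u}) (z := fun _ _ _ => ∅)
    (S := fun _ _ _ _ g => if g = ∅ then {∅} else ∅) (H := fun _ _ _ n => pty n)
    (f := fun _ _ p => p) U.empty (by
      refine U.ite (R := fun _ _ (p : (ZFSet.{u} × ZFSet.{u}) × ZFSet.{u}) => p.2 = ∅) ?_ ?_ ?_
      · exact URel.eq U.id.snd U.empty
      · exact U.singleton U.empty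
      · exact U.empty)
    (by intro N A hN a ha; simp [pty]) (by
      intro N A hN a ha n
      exact pty_succ n) U.id
  have h : U KZ.{u} (fun _ _ (_ : α) => ZFSet.sep (fun x => ¬ (if x ∈ ZFSet.omega then
      pty (toNat x) else ∅) = ∅) ZFSet.omega) := by
    refine U.sep (R := fun _ _ (_ : α) x => ¬ (if x ∈ ZFSet.omega then
      pty.{u} (toNat x) else ∅) = ∅) U.omega (URel.not (URel.eq ?_ U.empty))
    exact key.comp U.id.snd
  refine h.congr ?_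
  intro N A _ a _
  ext x
  unfold oddS
  rw [ZFSet.mem_sep, ZFSet.mem_sep]
  refine and_congr_right fun hx => ?_
  rw [if_pos hx]
  obtain ⟨n, rfl⟩ := mem_omega.1 hx
  rw [toNat_nat]
  unfold pty
  constructor
  · intro h
    refine ⟨n, rfl, ?_⟩
    by_contra hc
    rw [if_neg hc] at h
    exact h rfl
  · rintro ⟨m, hm, ho⟩
    rw [nat_inj] at hm
    subst hm
    rw [if_pos ho]
    exact sing_ne

theorem par_eq (c : ZFSet.{u}) : par c = ZFSet.sep (fun k => ∃ m ∈ oddS.{u}, pair k m ∈ c)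
    ZFSet.omega := by
  ext k
  unfold par
  rw [ZFSet.mem_sep, ZFSet.mem_sep]
  refine and_congr_right fun hk => ?_
  constructor
  · rintro ⟨n, m, rfl, h, ho⟩
    exact ⟨nz m, ZFSet.mem_sep.2 ⟨nat_mem_omega m, m, rfl, ho⟩, h⟩
  · rintro ⟨m, hm, h⟩
    obtain ⟨_, m, rfl, ho⟩ := ZFSet.mem_sep.1 hm
    obtain ⟨n, rfl⟩ := mem_omega.1 hk
    exact ⟨n, m, rfl, h, ho⟩

section
variable {α : Type (u + 1)} [Ctx.{u} α]

theorem u_par {f : Set ZFSet.{u} → Set ZFSet.{u} → α → ZFSet.{u}} (hf : U KZ.{u} f) :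
    U KZ.{u} (fun N A a => par (f N A a)) := by
  have h0 : U KZ.{u} (fun _ _ (c : ZFSet.{u}) => par c) := by
    have h : U KZ.{u} (fun _ _ (c : ZFSet.{u}) =>
        ZFSet.sep (fun k => ∃ m ∈ oddS.{u}, pair k m ∈ c) ZFSet.omega) := by
      refine U.sep (R := fun _ _ (c : ZFSet.{u}) k => ∃ m ∈ oddS.{u}, pair k m ∈ c) U.omega ?_
      refine URel.bex (α := ZFSet.{u} × ZFSet.{u}) (f := fun _ _ _ => oddS.{u})
        (R := fun _ _ p m => pair p.2 m ∈ p.1) u_odd ?_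
      exact URel.mem (U.pair U.id.fst.snd U.id.snd) U.id.fst.fst
    exact h.congr fun N A _ c _ => (par_eq c).symm
  exact h0.comp hf

theorem leF_iff (x y : ZFSet.{u}) : LeF x y ↔ ∀ n ∈ dom x, ∀ m ∈ ran x, ∀ m' ∈ ran y,
    pair n m ∈ x → pair n m' ∈ y → m ⊆ m' := by
  constructor
  · intro h n _ m _ m' _ h1 h2
    exact h n m m' h1 h2
  · intro h n m m' h1 h2
    exact h n (mem_dom.2 ⟨m, h1⟩) m (mem_ran.2 ⟨n, h1⟩) m' (mem_ran.2 ⟨n, h2⟩) h1 h2

theorem urel_leF {f g : Set ZFSet.{u} → Set ZFSet.{u} → α → ZFSet.{u}} (hf : U KZ.{u} f)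
    (hg : U KZ.{u} g) : URel KZ.{u} (fun N A a => LeF (f N A a) (g N A a)) := by
  have h0 : URel KZ.{u} (fun _ _ (p : ZFSet.{u} × ZFSet.{u}) => LeF p.1 p.2) := by
    have h : URel KZ.{u} (fun _ _ (p : ZFSet.{u} × ZFSet.{u}) => ∀ n ∈ dom p.1,
        ∀ m ∈ ran p.1, ∀ m' ∈ ran p.2, pair n m ∈ p.1 → pair n m' ∈ p.2 → m ⊆ m') := by
      apply_rules (transparency := .reducible) (maxDepth := 400) using is_poly
    exact h.congr fun N A _ p _ => (leF_iff p.1 p.2).symm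
  exact h0.comp (f := fun N A a => (f N A a, g N A a)) (hf.prodMk hg)

theorem urel_FF {f : Set ZFSet.{u} → Set ZFSet.{u} → α → ZFSet.{u}} (hf : U KZ.{u} f) :
    URel KZ.{u} (fun N A a => FF (f N A a)) := URel.isFunc U.omega U.omega hf

theorem u_CP {f : Set ZFSet.{u} → Set ZFSet.{u} → α → ZFSet.{u}} (hf : U KZ.{u} f) :
    U KZ.{u} (fun N A a => CP (f N A a)) := by
  have h0 : U KZ.{u} (fun _ _ (p : ZFSet.{u}) => CP p) := by
    unfold CP
    exact U.sUnion (U.img U.id (U.psnd U.id.snd))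
  exact h0.comp hf

theorem u_Xt {f g : Set ZFSet.{u} → Set ZFSet.{u} → α → ZFSet.{u}} (hf : U KZ.{u} f)
    (hg : U KZ.{u} g) : U KZ.{u} (fun N A a => Xt (f N A a) (g N A a)) := by
  have h0 : U KZ.{u} (fun _ _ (p : ZFSet.{u} × ZFSet.{u}) => Xt p.1 p.2) := by
    unfold Xt
    refine U.union U.id.fst (U.img U.id.snd (U.pair U.id.snd ?_))
    exact U.sep (R := fun _ _ (q : (ZFSet.{u} × ZFSet.{u}) × ZFSet.{u}) c => LeF c q.2)
      (u_CP U.id.fst.fst) (urel_leF U.id.snd U.id.fst.snd)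
  exact h0.comp (f := fun N A a => (f N A a, g N A a)) (hf.prodMk hg)

theorem u_Rl : U KZ.{u} (fun N _ (_ : α) => Rl N) :=
  U.pow (Pool.Agent.Helper76.GP.u_VO.comp (f := fun _ _ (_ : α) => PUnit.unit) U.unit)

/-- `IsP` with bounded quantifiers -/
theorem isP_iff {N A : Set ZFSet.{u}} (_hN : IsZF N A) {p : ZFSet.{u}} (hp : p ∈ N) :
    IsP N p ↔ CardLe N p ZFSet.omega ∧
    (∀ t ∈ p, t = pair (pfst t) (psnd t) ∧ FF (pfst t) ∧ CardLe N (psnd t) ZFSet.omega ∧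
      ∀ c ∈ psnd t, FF c ∧ LeF c (pfst t)) ∧
    ∀ t ∈ p, ∀ t' ∈ p, ∀ c ∈ psnd t, LeF c (pfst t') → c ∈ psnd t' := by
  unfold IsP
  constructor
  · rintro ⟨_, h1, h2, h3⟩
    refine ⟨h1, ?_, ?_⟩
    · intro t ht
      obtain ⟨x, s, rfl, h4, h5, h6⟩ := h2 t ht
      rw [pfst_pair, psnd_pair]
      exact ⟨rfl, h4, h5, h6⟩
    · intro t ht t' ht' c hc hl
      obtain ⟨x, s, rfl, h4, h5, h6⟩ := h2 t ht
      obtain ⟨x', s', rfl, h4', h5', h6'⟩ := h2 t' ht'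
      rw [psnd_pair] at hc ⊢
      rw [pfst_pair] at hl
      exact h3 x s x' s' c ht ht' hc hl
  · rintro ⟨h1, h2, h3⟩
    refine ⟨hp, h1, ?_, ?_⟩
    · intro t ht
      obtain ⟨h4, h5, h6, h7⟩ := h2 t ht
      exact ⟨pfst t, psnd t, h4, h5, h6, h7⟩
    · intro x s x' s' c ht ht' hc hl
      have := h3 _ ht _ ht' c (by rwa [psnd_pair]) (by rwa [pfst_pair])
      rwa [psnd_pair] at this

theorem urel_IsP0 : URel KZ.{u} (fun N _ (p : ZFSet.{u}) => IsP N p) := by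
  have h : URel KZ.{u} (fun N _ (p : ZFSet.{u}) => CardLe N p ZFSet.omega ∧
    (∀ t ∈ p, t = pair (pfst t) (psnd t) ∧ FF (pfst t) ∧ CardLe N (psnd t) ZFSet.omega ∧
      ∀ c ∈ psnd t, FF c ∧ LeF c (pfst t)) ∧
    ∀ t ∈ p, ∀ t' ∈ p, ∀ c ∈ psnd t, LeF c (pfst t') → c ∈ psnd t') := by
    refine URel.and (URel.cardLe U.id U.omega) (URel.and ?_ ?_)
    · refine URel.ball (R := fun N _ (p : ZFSet.{u}) t => t = pair (pfst t) (psnd t) ∧
        FF (pfst t) ∧ CardLe N (psnd t) ZFSet.omega ∧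
        ∀ c ∈ psnd t, FF c ∧ LeF c (pfst t)) U.id ?_
      refine URel.and (URel.eq U.id.snd (U.pair (U.pfst U.id.snd) (U.psnd U.id.snd)))
        (URel.and (urel_FF (U.pfst U.id.snd)) (URel.and
        (URel.cardLe (U.psnd U.id.snd) U.omega) ?_))
      refine URel.ball (R := fun N _ (q : ZFSet.{u} × ZFSet.{u}) c => FF c ∧ LeF c (pfst q.2))
        (U.psnd U.id.snd) ?_
      exact URel.and (urel_FF U.id.snd) (urel_leF U.id.snd (U.pfst U.id.fst.snd))
    · refine URel.ball (R := fun N _ (p : ZFSet.{u}) t => ∀ t' ∈ p, ∀ c ∈ psnd t,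
        LeF c (pfst t') → c ∈ psnd t') U.id ?_
      refine URel.ball (R := fun N _ (q : ZFSet.{u} × ZFSet.{u}) t' => ∀ c ∈ psnd q.2,
        LeF c (pfst t') → c ∈ psnd t') U.id.fst ?_
      refine URel.ball (R := fun N _ (q : (ZFSet.{u} × ZFSet.{u}) × ZFSet.{u}) c =>
        LeF c (pfst q.2) → c ∈ psnd q.2) (U.psnd U.id.fst.snd) ?_
      exact URel.imp (urel_leF U.id.snd (U.pfst U.id.fst.snd))
        (URel.mem U.id.snd (U.psnd U.id.fst.snd))
  exact h.congr fun N A hN p hp => (isP_iff hN (in_zfset.1 hp)).symm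

theorem urel_IsP {f : Set ZFSet.{u} → Set ZFSet.{u} → α → ZFSet.{u}} (hf : U KZ.{u} f) :
    URel KZ.{u} (fun N A a => IsP N (f N A a)) := urel_IsP0.comp hf

theorem u_PG : U KZ.{u} (fun N _ (_ : α) => PG N) := by
  have h : U KZ.{u} (fun N _ (_ : α) =>
      (Pool.Agent.Helper66.SC.Pow N ((Rl N).prod (Pool.Agent.Helper66.SC.Pow N (Rl N)))).sep
        (fun p => IsP N p)) :=
    U.sep (R := fun N _ (_ : α) p => IsP N p) (U.pow (U.prod u_Rl (U.pow u_Rl)))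
      (urel_IsP U.id.snd)
  exact h

theorem AR_eq (M : Set ZFSet.{u}) (H : ZFSet.{u}) : AR M H = ((Rl M).prod (Rl M)).sep
    (fun t => ∃ c ∈ CP (ZFSet.sUnion H), FF (pfst t) ∧ LeF c (pfst t) ∧
      t = pair (pfst t) (par c)) := by
  ext t
  unfold AR
  rw [ZFSet.mem_sep, ZFSet.mem_sep]
  refine and_congr_right fun _ => ?_
  constructor
  · rintro ⟨c, hc, x, hx, hl, rfl⟩
    exact ⟨c, hc, by rwa [pfst_pair], by rwa [pfst_pair], by rw [pfst_pair]⟩
  · rintro ⟨c, hc, h1, h2, h3⟩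
    exact ⟨c, hc, pfst t, h1, h2, h3⟩

theorem u_AR {f : Set ZFSet.{u} → Set ZFSet.{u} → α → ZFSet.{u}} (hf : U KZ.{u} f) :
    U KZ.{u} (fun N A a => AR N (f N A a)) := by
  have h0 : U KZ.{u} (fun N _ (H : ZFSet.{u}) => AR N H) := by
    have h : U KZ.{u} (fun N _ (H : ZFSet.{u}) => ((Rl N).prod (Rl N)).sep
        (fun t => ∃ c ∈ CP (ZFSet.sUnion H), FF (pfst t) ∧ LeF c (pfst t) ∧
        t = pair (pfst t) (par c))) := by
      refine U.sep (R := fun N _ (H : ZFSet.{u}) t => ∃ c ∈ CP (ZFSet.sUnion H),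
        FF (pfst t) ∧ LeF c (pfst t) ∧ t = pair (pfst t) (par c)) (U.prod u_Rl u_Rl) ?_
      refine URel.bex (R := fun N _ (q : ZFSet.{u} × ZFSet.{u}) c =>
        FF (pfst q.2) ∧ LeF c (pfst q.2) ∧ q.2 = pair (pfst q.2) (par c))
        (u_CP (U.sUnion U.id.fst)) ?_
      refine URel.and (urel_FF (U.pfst U.id.fst.snd)) (URel.and
        (urel_leF U.id.snd (U.pfst U.id.fst.snd)) (URel.eq U.id.fst.snd
          (U.pair (U.pfst U.id.fst.snd) (u_par U.id.snd))))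
    exact h.congr fun N A _ H _ => (AR_eq N H).symm
  exact h0.comp hf

end

theorem isP_sub {M A : Set ZFSet.{u}} (hM : IsZF M A) {p : ZFSet.{u}} (h : IsP M p) :
    p ⊆ (Rl M).prod (PW M (Rl M)) := by
  intro t ht
  obtain ⟨hp, h1, h2, h3⟩ := h
  obtain ⟨x, s, rfl, h4, h5, h6⟩ := h2 t ht
  obtain ⟨hx, hs⟩ := hM.of_pair (hM.trans _ hp _ ht)
  refine pair_mem_prod.2 ⟨mem_Rl.2 ⟨Pool.Agent.Helper76.GP.FF_VO h4, hx⟩,
    mem_Pow.2 ⟨hs, fun c hc => mem_Rl.2 ⟨Pool.Agent.Helper76.GP.FF_VO (h6 c hc).1,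
      hM.trans _ hs _ hc⟩⟩⟩

theorem mem_PG {M A : Set ZFSet.{u}} (hM : IsZF M A) {p : ZFSet.{u}} :
    p ∈ PG M ↔ IsP M p := by
  unfold PG
  rw [ZFSet.mem_sep]
  exact ⟨fun h => h.2, fun h => ⟨mem_Pow.2 ⟨h.1, isP_sub hM h⟩, h⟩⟩

theorem isP_empty {M A : Set ZFSet.{u}} (hM : IsZF M A) : IsP M ∅ := by
  refine ⟨hM.empty_mem, cardLe_subset hM hM.empty_mem (empty_subset _), ?_, ?_⟩
  · intro t ht
    exact absurd ht (notMem_empty _)
  · intro x s x' s' c h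
    exact absurd h (notMem_empty _)

/-- P1. -/
theorem st_P1 : ST_P1.{u} := by
  refine ⟨u_PG, u_Rl, u_CP U.id, u_Xt U.id.fst U.id.snd, u_par U.id, u_AR U.id, urel_IsP U.id,
    urel_FF U.id, urel_leF U.id.fst U.id.snd, fun M A hM => ⟨?_, ?_, fun p => mem_PG hM⟩⟩
  · exact in_zfset.1 ((u_PG (α := PUnit.{u + 2})).closed hM (a := PUnit.unit)
      (fun i => i.elim0))
  · exact (mem_PG hM).2 (isP_empty hM)

end Pool.Agent.Helper44.GP
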