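import Pool.Agent.Helper44.GP.P1

/-! # P2: extension of conditions -/

universe u

namespace Pool.Agent.Helper44.GP

open ZFSet Pool.Agent.Helper66.SC Pool.Agent.Helper22.SC Pool.Agent.Helper66.GP
open Pool.Agent.Helper76.GP (mem_Rl prod_omega)

/-! ### countable sets -/

theorem omega0_mem {M A : Set ZFSet.{u}} (hM : IsZF M A) : oz Ordinal.omega0 ∈ M := by
  have := hM.omega
  rwa [omega_eq] at this

theorem cnt_img {M A : Set ZFSet.{u}} (hM : IsZF M A) {a : ZFSet.{u}} {f : ZFSet.{u} → ZFSet.{u}}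
    (ha : a ∈ M) (hc : CardLe M a ZFSet.omega) (h1 : Helper66.SC.img a f ∈ M)
    (h2 : Helper22.SC.gr a f ∈ M) : CardLe M (Helper66.SC.img a f) ZFSet.omega := by
  rw [omega_eq] at hc ⊢
  refine st_K2 M A hM a ha _ h1 _ h2 _ (omega0_mem hM) hc ?_ ?_
  · intro x y z hy hz
    exact (pair_mem_gr.1 hy).2.trans (pair_mem_gr.1 hz).2.symm
  · intro y hy
    obtain ⟨x, hx, rfl⟩ := mem_img.1 hy
    exact ⟨x, hx, pair_mem_gr.2 ⟨hx, rfl⟩⟩

theorem cnt_sUnion {M A : Set ZFSet.{u}} (hM : IsZF M A) (hW : WO M) {s : ZFSet.{u}}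
    (hs : s ∈ M) (hc : CardLe M s ZFSet.omega) (h : ∀ x ∈ s, CardLe M x ZFSet.omega) :
    CardLe M (ZFSet.sUnion s) ZFSet.omega :=
  cardLe_trans hM (hM.sUnion _ hs)
    (st_K4 M A hM hW s hs ZFSet.omega hM.omega ZFSet.omega hM.omega hc h) (prod_omega hM)

open Classical in
theorem cnt_two {M A : Set ZFSet.{u}} (hM : IsZF M A) {x y : ZFSet.{u}} (hx : x ∈ M)
    (hy : y ∈ M) : CardLe M ({x, y} : ZFSet.{u}) ZFSet.omega := by
  refine cardLe_of_gr (g := fun z => if z = x then nat 0 else nat 1) ?_ ?_ ?_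
  · have := (show U KZ (fun _ _ (p : ZFSet.{u} × ZFSet.{u}) =>
      Helper22.SC.gr p.1 (fun z => if z = p.2 then nat 0 else nat 1)) by
      refine U.gr U.id.fst ?_
      refine U.ite (R := fun _ _ (q : (ZFSet.{u} × ZFSet.{u}) × ZFSet.{u}) => q.2 = q.1.2) ?_
        (U.nat' 0) (U.nat' 1)
      exact Helper22.SC.URel.eq U.id.snd U.id.fst.snd).closed hM
      (a := (({x, y} : ZFSet.{u}), x)) (by
        simp only [in_prod, in_zfset]
        exact ⟨hM.pair x hx y hy, hx⟩)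
    exact in_zfset.1 this
  · intro z _
    split_ifs
    · exact nat_mem_omega 0
    · exact nat_mem_omega 1
  · intro z hz w hw h
    have hne : (nat 0 : ZFSet.{u}) ≠ nat 1 := fun h => by
      have := nat_inj.1 h
      omega
    rcases ZFSet.mem_pair.1 hz with rfl | hz1
    · rcases ZFSet.mem_pair.1 hw with rfl | hw1
      · rfl
      · rw [if_pos rfl] at h
        by_contra hc
        rw [if_neg (fun h => hc h.symm)] at h
        exact hne h
    · rcases ZFSet.mem_pair.1 hw with rfl | hw1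
      · rw [if_pos rfl] at h
        by_contra hc
        rw [if_neg hc] at h
        exact hne h.symm
      · rw [hz1, hw1]

theorem sUnion_two (x y : ZFSet.{u}) : ZFSet.sUnion ({x, y} : ZFSet.{u}) = x ∪ y := by
  ext z
  rw [mem_sUnion, mem_union]
  constructor
  · rintro ⟨w, hw, hz⟩
    rcases ZFSet.mem_pair.1 hw with rfl | rfl
    · exact Or.inl hz
    · exact Or.inr hz
  · rintro (h | h)
    · exact ⟨x, ZFSet.mem_pair.2 (Or.inl rfl), h⟩
    · exact ⟨y, ZFSet.mem_pair.2 (Or.inr rfl), h⟩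

theorem union_mem' {M A : Set ZFSet.{u}} (hM : IsZF M A) {x y : ZFSet.{u}} (hx : x ∈ M)
    (hy : y ∈ M) : x ∪ y ∈ M := by
  rw [← sUnion_two]
  exact hM.sUnion _ (hM.pair x hx y hy)

theorem cnt_union {M A : Set ZFSet.{u}} (hM : IsZF M A) (hW : WO M) {x y : ZFSet.{u}}
    (hx : x ∈ M) (hy : y ∈ M) (h1 : CardLe M x ZFSet.omega) (h2 : CardLe M y ZFSet.omega) :
    CardLe M (x ∪ y) ZFSet.omega := by
  rw [← sUnion_two]
  refine cnt_sUnion hM hW (hM.pair x hx y hy) (cnt_two hM hx hy) ?_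
  intro z hz
  rcases ZFSet.mem_pair.1 hz with rfl | rfl
  · exact h1
  · exact h2

/-! ### the set `CP p` -/

theorem mem_CP {p c : ZFSet.{u}} : c ∈ CP p ↔ ∃ t ∈ p, c ∈ psnd t := by
  unfold CP
  rw [ZFSet.mem_sUnion]
  constructor
  · rintro ⟨w, hw, hc⟩
    obtain ⟨t, ht, rfl⟩ := mem_img.1 hw
    exact ⟨t, ht, hc⟩
  · rintro ⟨t, ht, hc⟩
    exact ⟨psnd t, mem_img.2 ⟨t, ht, rfl⟩, hc⟩

/-- membership in `CP p` for a condition -/
theorem mem_CP_isP {M : Set ZFSet.{u}} {p c : ZFSet.{u}} (h : IsP M p) :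
    c ∈ CP p ↔ ∃ x s, pair x s ∈ p ∧ c ∈ s := by
  rw [mem_CP]
  constructor
  · rintro ⟨t, ht, hc⟩
    obtain ⟨x, s, rfl, -⟩ := h.2.2.1 t ht
    rw [psnd_pair] at hc
    exact ⟨x, s, ht, hc⟩
  · rintro ⟨x, s, ht, hc⟩
    exact ⟨_, ht, by rwa [psnd_pair]⟩

theorem CP_mem {M A : Set ZFSet.{u}} (hM : IsZF M A) {p : ZFSet.{u}} (hp : p ∈ M) :
    CP p ∈ M :=
  in_zfset.1 ((u_CP (α := ZFSet.{u}) U.id).closed hM (a := p) (in_zfset.2 hp))

theorem Xt_mem {M A : Set ZFSet.{u}} (hM : IsZF M A) {p a : ZFSet.{u}} (hp : p ∈ M)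
    (ha : a ∈ M) : Xt p a ∈ M :=
  in_zfset.1 ((u_Xt (α := ZFSet.{u} × ZFSet.{u}) U.id.fst U.id.snd).closed hM (a := (p, a))
    (in_prod.2 ⟨in_zfset.2 hp, in_zfset.2 ha⟩))

theorem FF_of_mem_CP {M : Set ZFSet.{u}} {p c : ZFSet.{u}} (h : IsP M p) (hc : c ∈ CP p) :
    FF c := by
  obtain ⟨x, s, ht, hc⟩ := (mem_CP_isP h).1 hc
  obtain ⟨x', s', e, -, -, h3⟩ := h.2.2.1 _ ht
  rw [ZFSet.pair_inj] at e
  rw [e.2] at hc
  exact (h3 c hc).1

theorem cnt_CP {M A : Set ZFSet.{u}} (hM : IsZF M A) (hW : WO M) {p : ZFSet.{u}}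
    (h : IsP M p) : CardLe M (CP p) ZFSet.omega := by
  have h1 : Helper66.SC.img p psnd ∈ M := by
    have := (show U KZ (fun _ _ (p : ZFSet.{u}) => Helper66.SC.img p psnd) from
      U.img U.id (U.psnd U.id.snd)).closed hM (a := p) (in_zfset.2 h.1)
    exact in_zfset.1 this
  have h2 : Helper22.SC.gr p psnd ∈ M := by
    have := (show U KZ (fun _ _ (p : ZFSet.{u}) => Helper22.SC.gr p psnd) from
      U.gr U.id (U.psnd U.id.snd)).closed hM (a := p) (in_zfset.2 h.1)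
    exact in_zfset.1 this
  unfold CP
  refine cnt_sUnion hM hW h1 (cnt_img hM h.1 h.2.1 h1 h2) ?_
  intro w hw
  obtain ⟨t, ht, rfl⟩ := mem_img.1 hw
  obtain ⟨x, s, rfl, -, h3, -⟩ := h.2.2.1 t ht
  rwa [psnd_pair]

theorem mem_Xt {p a t : ZFSet.{u}} : t ∈ Xt p a ↔ t ∈ p ∨
    ∃ x ∈ a, t = pair x ((CP p).sep (fun c => LeF c x)) := by
  unfold Xt
  rw [mem_union, mem_img]
  refine or_congr_right ?_
  constructor
  · rintro ⟨x, hx, rfl⟩
    exact ⟨x, hx, rfl⟩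
  · rintro ⟨x, hx, rfl⟩
    exact ⟨x, hx, rfl⟩

theorem CP_Xt (p a : ZFSet.{u}) : CP (Xt p a) = CP p := by
  ext c
  constructor
  · intro h
    obtain ⟨t, ht, hc⟩ := mem_CP.1 h
    rcases mem_Xt.1 ht with h1 | ⟨x, hx, rfl⟩
    · exact mem_CP.2 ⟨t, h1, hc⟩
    · rw [psnd_pair] at hc
      exact (mem_sep.1 hc).1
  · intro h
    obtain ⟨t, ht, hc⟩ := mem_CP.1 h
    exact mem_CP.2 ⟨t, mem_Xt.2 (Or.inl ht), hc⟩

theorem isP_Xt {M A : Set ZFSet.{u}} (hM : IsZF M A) (hW : WO M) {p a : ZFSet.{u}}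
    (hp : IsP M p) (ha : a ∈ M) (hac : CardLe M a ZFSet.omega) (haF : ∀ x ∈ a, FF x) :
    IsP M (Xt p a) := by
  have hS : ∀ x ∈ a, (CP p).sep (fun c => LeF c x) ∈ M := by
    intro x hx
    have hX := Xt_mem hM hp.1 ha
    exact (hM.of_pair (hM.trans _ hX _ (mem_Xt.2 (Or.inr ⟨x, hx, rfl⟩)))).2
  refine ⟨Xt_mem hM hp.1 ha, ?_, ?_, ?_⟩
  · have hi : Helper66.SC.img a (fun x => pair x ((CP p).sep (fun c => LeF c x))) ∈ M := by
      have := (show U KZ (fun _ _ (q : ZFSet.{u} × ZFSet.{u}) =>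
        Helper66.SC.img q.2 (fun x => pair x ((CP q.1).sep (fun c => LeF c x)))) by
        refine U.img U.id.snd (U.pair U.id.snd ?_)
        exact U.sep (R := fun _ _ (q : (ZFSet.{u} × ZFSet.{u}) × ZFSet.{u}) c => LeF c q.2)
          (u_CP U.id.fst.fst) (urel_leF U.id.snd U.id.fst.snd)).closed hM (a := (p, a))
          (in_prod.2 ⟨in_zfset.2 hp.1, in_zfset.2 ha⟩)
      exact in_zfset.1 this
    have hg : Helper22.SC.gr a (fun x => pair x ((CP p).sep (fun c => LeF c x))) ∈ M := by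
      have := (show U KZ (fun _ _ (q : ZFSet.{u} × ZFSet.{u}) =>
        Helper22.SC.gr q.2 (fun x => pair x ((CP q.1).sep (fun c => LeF c x)))) by
        refine U.gr U.id.snd (U.pair U.id.snd ?_)
        exact U.sep (R := fun _ _ (q : (ZFSet.{u} × ZFSet.{u}) × ZFSet.{u}) c => LeF c q.2)
          (u_CP U.id.fst.fst) (urel_leF U.id.snd U.id.fst.snd)).closed hM (a := (p, a))
          (in_prod.2 ⟨in_zfset.2 hp.1, in_zfset.2 ha⟩)
      exact in_zfset.1 this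
    unfold Xt
    exact cnt_union hM hW hp.1 hi hp.2.1 (cnt_img hM ha hac hi hg)
  · intro t ht
    rcases mem_Xt.1 ht with h1 | ⟨x, hx, rfl⟩
    · exact hp.2.2.1 t h1
    · refine ⟨x, _, rfl, haF x hx, ?_, ?_⟩
      · refine cardLe_trans hM (hS x hx) (cardLe_subset hM (hS x hx) ?_) (cnt_CP hM hW hp)
        intro c hc
        exact (mem_sep.1 hc).1
      · intro c hc
        obtain ⟨h1, h2⟩ := mem_sep.1 hc
        exact ⟨FF_of_mem_CP hp h1, h2⟩
  · intro x s x' s' c h1 h2 hc hl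
    have hcp : c ∈ CP p := by
      rw [← CP_Xt p a]
      exact mem_CP.2 ⟨_, h1, by rwa [psnd_pair]⟩
    rcases mem_Xt.1 h2 with h3 | ⟨y, hy, e⟩
    · obtain ⟨x0, s0, h4, h5⟩ := (mem_CP_isP hp).1 hcp
      exact hp.2.2.2 x0 s0 x' s' c h4 h3 h5 hl
    · rw [ZFSet.pair_inj] at e
      rw [e.2]
      refine mem_sep.2 ⟨hcp, ?_⟩
      rwa [← e.1]

/-- P2. -/
theorem st_P2 : ST_P2.{u} := by
  intro M A hM hW p a hp ha hac haF
  refine ⟨isP_Xt hM hW hp ha hac haF, CP_Xt p a, fun x hx => ⟨_, mem_Xt.2 (Or.inr ⟨x, hx, rfl⟩)⟩⟩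

end Pool.Agent.Helper44.GP
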