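import Pool.Agent.Helper66.GP.PP

/-! # PL: the product lemma for split posets -/

universe u

namespace Pool.Agent.Helper44.GP

open ZFSet Pool.Agent.Helper66.SC Pool.Agent.Helper22.SC Pool.Agent.Helper66.GP

section
variable {M : Set ZFSet.{u}} {P Q F K : ZFSet.{u}}

/-- mutual genericity from genericity of the pair -/
theorem right_of_pairs (hM : Ctm M) (hP : P ∈ M) (hQ : Q ∈ M) (hK' : IsGeneric M Q K)
    (hsub : F ⊆ P) (htop : ∅ ∈ F) (hup : ∀ p ∈ F, ∀ q ∈ P, q ⊆ p → q ∈ F)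
    (hdir : ∀ p ∈ F, ∀ q ∈ F, ∃ r ∈ F, p ⊆ r ∧ q ⊆ r)
    (hpairs : ∀ D ∈ M, D ⊆ P.prod Q → (∀ p ∈ P, ∀ q ∈ Q, ∃ p' ∈ P, ∃ q' ∈ Q, p ⊆ p' ∧
      q ⊆ q' ∧ pair p' q' ∈ D) → ∃ p ∈ F, ∃ q ∈ K, pair p q ∈ D) :
    IsGeneric (Ext M K) P F := by
  refine ⟨hsub, htop, hup, hdir, fun D hD hDP hd => ?_⟩
  obtain ⟨δ, hδ, rfl⟩ := hD
  have h0 : ∅ ∈ Q := hK'.sub hK'.top
  -- some condition forces density
  have hrel : URel KZ.{u} (fun _ _ (a : ZFSet.{u} × ZFSet.{u}) =>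
      ∀ p ∈ a.1, ∃ r ∈ a.2, r ∈ a.1 ∧ p ⊆ r) := by
    apply_rules (transparency := .reducible) (maxDepth := 400) using is_poly
  obtain ⟨φ, hφ⟩ := (ud2_iff (C := KZ.{u}) (R := fun _ _ x y => ∀ p ∈ x, ∃ r ∈ y,
    r ∈ x ∧ p ⊆ r)).2 hrel
  have hv : ∀ i, (![chk P, δ] : Fin 2 → ZFSet.{u}) i ∈ M := by
    intro i
    fin_cases i
    · exact chk_mem hM.zf hP
    · exact hδ
  have hval : ∀ K', IsGeneric M Q K' → (fun i => val K' ((![chk P, δ] : Fin 2 → ZFSet.{u}) i)) =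
      ![P, val K' δ] := by
    intro K' hK'
    funext i
    fin_cases i
    · exact val_chk' hM hQ hK' hP
    · rfl
  have key : ∀ K', IsGeneric M Q K' → (Sat (Ext M K') ∅ φ (fun i => val K'
      ((![chk P, δ] : Fin 2 → ZFSet.{u}) i)) ↔ ∀ p ∈ P, ∃ r ∈ val K' δ, r ∈ P ∧ p ⊆ r) := by
    intro K' hK'
    rw [hval K' hK']
    have hE := st_KE M Q K' hM hQ hK'
    refine hφ (Ext M K') ∅ hE.zf ![P, val K' δ] (fun i => ?_)
    fin_cases i
    · exact sub_ext hM hQ hK' hP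
    · exact ⟨δ, hδ, rfl⟩
  obtain ⟨q₀, hq₀, hf⟩ := st_KT M Q K hM hQ hK' 2 φ ![chk P, δ] hv ((key K hK').2 (fun p hp => by
      obtain ⟨r, hr, h⟩ := hd p hp
      exact ⟨r, hr, hDP hr, h⟩))
  obtain ⟨D₀, hD₀, hD₀'⟩ := st_KD M Q hM hQ h0 1 (.mem 0 1) (fun _ => δ) (fun _ => hδ) P hP
  have h1 : ZFSet.sep (fun z => z ∈ D₀ ∨ ¬ ∃ r ∈ Q, psnd z ⊆ r ∧ q₀ ⊆ r) (P.prod Q) ∈ M := by
    have h : U KZ.{u} (fun _ _ (a : ((ZFSet.{u} × ZFSet.{u}) × ZFSet.{u}) × ZFSet.{u}) =>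
        ZFSet.sep (fun z => z ∈ a.1.2 ∨ ¬ ∃ r ∈ a.1.1.2, psnd z ⊆ r ∧ a.2 ⊆ r)
          (a.1.1.1.prod a.1.1.2)) := by
      apply_rules (transparency := .reducible) (maxDepth := 400) using is_poly
    have := h.closed hM.zf (a := (((P, Q), D₀), q₀)) (by
      simp [hP, hQ, hD₀, hM.zf.trans Q hQ q₀ (hK'.sub hq₀)])
    simpa using this
  obtain ⟨p, hp, q, hq, hpq⟩ := hpairs _ h1 (fun z hz => (ZFSet.mem_sep.1 hz).1) (by
    intro p hp q hq
    by_cases hc : ∃ r ∈ Q, q ⊆ r ∧ q₀ ⊆ r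
    · obtain ⟨r, hr, hqr, hq₀r⟩ := hc
      obtain ⟨K', hK', hrK'⟩ := exists_generic hM hQ h0 hr
      have hq₀K' : q₀ ∈ K' := hK'.up r hrK' q₀ (‹IsGeneric M Q K›.sub hq₀) hq₀r
      obtain ⟨s, hs, hsP, hps⟩ := (key K' hK').1 (hf K' hK' hq₀K') p hp
      have hsM := hM.zf.trans P hP s hsP
      have hv' : ∀ i, (![chk s, δ] : Fin 2 → ZFSet.{u}) i ∈ M := by
        intro i
        fin_cases i
        · exact chk_mem hM.zf hsM
        · exact hδ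
      obtain ⟨q₁, hq₁, h⟩ := st_KT M Q K' hM hQ hK' 2 (.mem 0 1) ![chk s, δ] hv' (by
        change val K' (chk s) ∈ val K' δ
        rwa [val_chk' hM hQ hK' hsM])
      obtain ⟨q₂, hq₂, hrq₂, hq₁q₂⟩ := hK'.dir r hrK' q₁ hq₁
      refine ⟨s, hsP, q₂, hK'.sub hq₂, hps, hqr.trans hrq₂, ?_⟩
      refine ZFSet.mem_sep.2 ⟨pair_mem_prod.2 ⟨hsP, hK'.sub hq₂⟩, Or.inl ?_⟩
      refine (hD₀' s hsP q₂ (hK'.sub hq₂)).2 (fun K'' hK'' hq₂' => ?_)
      have := h K'' hK'' (hK''.up q₂ hq₂' q₁ (hK'.sub hq₁) hq₁q₂)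
      change val K'' (chk s) ∈ val K'' δ at this
      rwa [val_chk' hM hQ hK'' hsM] at this
    · exact ⟨p, hp, q, hq, fun _ h => h, fun _ h => h,
        ZFSet.mem_sep.2 ⟨pair_mem_prod.2 ⟨hp, hq⟩, Or.inr (by rwa [psnd_pair])⟩⟩)
  obtain ⟨_, hz | hz⟩ := ZFSet.mem_sep.1 hpq
  · exact ⟨p, hp, (hD₀' p (hsub hp) q (hK'.sub hq)).1 hz K hK' hq⟩
  · exfalso
    rw [psnd_pair] at hz
    obtain ⟨r, hr, h1, h2⟩ := hK'.dir q hq q₀ hq₀
    exact hz ⟨r, hK'.sub hr, h1, h2⟩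

end

section
variable {M : Set ZFSet.{u}} {P Q R G : ZFSet.{u}}

theorem union_empty' (b : ZFSet.{u}) : b ∪ ∅ = b := by
  ext z; simp

theorem empty_union' (b : ZFSet.{u}) : ∅ ∪ b = b := by
  ext z; simp

theorem sub_union_left (a b : ZFSet.{u}) : a ⊆ a ∪ b := fun _ h => mem_union.2 (Or.inl h)

theorem sub_union_right (a b : ZFSet.{u}) : b ⊆ a ∪ b := fun _ h => mem_union.2 (Or.inr h)

theorem union_sub {a b c : ZFSet.{u}} (h1 : a ⊆ c) (h2 : b ⊆ c) : a ∪ b ⊆ c := by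
  intro x hx
  rcases mem_union.1 hx with h | h
  · exact h1 h
  · exact h2 h

theorem union_mono' {a b c d : ZFSet.{u}} (h1 : a ⊆ c) (h2 : b ⊆ d) : a ∪ b ⊆ c ∪ d :=
  union_sub (h1.trans (sub_union_left _ _)) (h2.trans (sub_union_right _ _))

theorem split_QP (h : Split M P Q R) {b : ZFSet.{u}} (hb : b ∈ Q) : b ∈ P := by
  have := h.un b hb ∅ h.eR
  rwa [union_empty'] at this

theorem split_RP (h : Split M P Q R) {q : ZFSet.{u}} (hq : q ∈ R) : q ∈ P := by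
  have := h.un ∅ h.eQ q hq
  rwa [empty_union'] at this

theorem split_cmpQ (h : Split M P Q R) {b b' q' : ZFSet.{u}} (hb : b ∈ Q) (hb' : b' ∈ Q)
    (hq' : q' ∈ R) (hs : b ⊆ b' ∪ q') : b ⊆ b' := by
  refine (h.cmp b hb b' hb' ∅ h.eR q' hq' ?_).1
  rwa [union_empty']

theorem split_cmpR (h : Split M P Q R) {q b' q' : ZFSet.{u}} (hq : q ∈ R) (hb' : b' ∈ Q)
    (hq' : q' ∈ R) (hs : q ⊆ b' ∪ q') : q ⊆ q' := by
  refine (h.cmp ∅ h.eQ b' hb' q hq q' hq' ?_).2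
  rwa [empty_union']

theorem union_mem_gen (h : Split M P Q R) (hG : IsGeneric M P G) {b q : ZFSet.{u}}
    (hb : b ∈ Q) (hq : q ∈ R) (hbG : b ∈ G) (hqG : q ∈ G) : b ∪ q ∈ G := by
  obtain ⟨r, hr, h1, h2⟩ := hG.dir b hbG q hqG
  exact hG.up r hr _ (h.un b hb q hq) (union_sub h1 h2)

theorem dec_gen (h : Split M P Q R) (hG : IsGeneric M P G) {p : ZFSet.{u}} (hp : p ∈ G) :
    ∃ b ∈ Q, ∃ q ∈ R, p = b ∪ q ∧ b ∈ G ∧ q ∈ G := by
  obtain ⟨b, hb, q, hq, rfl⟩ := h.dec p (hG.sub hp)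
  exact ⟨b, hb, q, hq, rfl, hG.up _ hp b (split_QP h hb) (sub_union_left _ _),
    hG.up _ hp q (split_RP h hq) (sub_union_right _ _)⟩

theorem genQ (hM : Ctm M) (h : Split M P Q R) (hG : IsGeneric M P G) :
    IsGeneric M Q (G ∩ Q) := by
  refine ⟨fun x hx => (mem_inter.1 hx).2, mem_inter.2 ⟨hG.top, h.eQ⟩, ?_, ?_, ?_⟩
  · intro p hp q hq hqp
    exact mem_inter.2 ⟨hG.up p (mem_inter.1 hp).1 q (split_QP h hq) hqp, hq⟩
  · intro p hp q hq
    obtain ⟨hp1, hp2⟩ := mem_inter.1 hp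
    obtain ⟨hq1, hq2⟩ := mem_inter.1 hq
    obtain ⟨r, hr, h1, h2⟩ := hG.dir p hp1 q hq1
    obtain ⟨b, hb, c, hc, rfl, hbG, hcG⟩ := dec_gen h hG hr
    exact ⟨b, mem_inter.2 ⟨hbG, hb⟩, split_cmpQ h hp2 hb hc h1, split_cmpQ h hq2 hb hc h2⟩
  · intro D hD hDQ hd
    have h1 : Pool.Agent.Helper66.SC.img (D.prod R) (fun t => pfst t ∪ psnd t) ∈ M := by
      have h : U KZ.{u} (fun _ _ (a : ZFSet.{u} × ZFSet.{u}) =>
          Pool.Agent.Helper66.SC.img (a.1.prod a.2) (fun t => pfst t ∪ psnd t)) := by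
        apply_rules (transparency := .reducible) (maxDepth := 400) using is_poly
      have := h.closed hM.zf (a := (D, R)) (by simp [hD, ‹Split M P Q R›.hR])
      simpa using this
    obtain ⟨p, hp, hp'⟩ := hG.meets _ h1 (by
      intro x hx
      obtain ⟨t, ht, rfl⟩ := mem_img.1 hx
      obtain ⟨b, hb, q, hq, rfl⟩ := ZFSet.mem_prod.1 ht
      rw [pfst_pair, psnd_pair]
      exact h.un b (hDQ hb) q hq) (by
      intro p hp
      obtain ⟨b, hb, q, hq, rfl⟩ := h.dec p hp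
      obtain ⟨b', hb', hbb'⟩ := hd b hb
      refine ⟨b' ∪ q, mem_img.2 ⟨pair b' q, pair_mem_prod.2 ⟨hb', hq⟩, ?_⟩,
        union_mono' hbb' (fun _ h => h)⟩
      simp)
    obtain ⟨t, ht, he⟩ := mem_img.1 hp'
    obtain ⟨b, hb, q, hq, rfl⟩ := ZFSet.mem_prod.1 ht
    simp only [pfst_pair, psnd_pair] at he
    have hbG : b ∈ G := by
      refine hG.up p hp b (split_QP h (hDQ hb)) ?_
      first
        | (rw [he]; exact sub_union_left _ _)
        | (rw [← he]; exact sub_union_left _ _)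
    exact ⟨b, mem_inter.2 ⟨hbG, hDQ hb⟩, hb⟩

theorem genR (hM : Ctm M) (h : Split M P Q R) (hG : IsGeneric M P G) :
    IsGeneric (Ext M (G ∩ Q)) R (G ∩ R) := by
  refine right_of_pairs hM h.hR h.hQ (genQ hM h hG) (fun x hx => (mem_inter.1 hx).2)
    (mem_inter.2 ⟨hG.top, h.eR⟩) ?_ ?_ ?_
  · intro p hp q hq hqp
    exact mem_inter.2 ⟨hG.up p (mem_inter.1 hp).1 q (split_RP h hq) hqp, hq⟩
  · intro p hp q hq
    obtain ⟨hp1, hp2⟩ := mem_inter.1 hp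
    obtain ⟨hq1, hq2⟩ := mem_inter.1 hq
    obtain ⟨r, hr, h1, h2⟩ := hG.dir p hp1 q hq1
    obtain ⟨b, hb, c, hc, rfl, hbG, hcG⟩ := dec_gen h hG hr
    exact ⟨c, mem_inter.2 ⟨hcG, hc⟩, split_cmpR h hp2 hb hc h1, split_cmpR h hq2 hb hc h2⟩
  · intro D hD hDQ hd
    have h1 : Pool.Agent.Helper66.SC.img D (fun t => psnd t ∪ pfst t) ∈ M := by
      have h : U KZ.{u} (fun _ _ (a : ZFSet.{u}) =>
          Pool.Agent.Helper66.SC.img a (fun t => psnd t ∪ pfst t)) := by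
        apply_rules (transparency := .reducible) (maxDepth := 400) using is_poly
      have := h.closed hM.zf (a := D) (by simp [hD])
      simpa using this
    obtain ⟨p, hp, hp'⟩ := hG.meets _ h1 (by
      intro x hx
      obtain ⟨t, ht, rfl⟩ := mem_img.1 hx
      obtain ⟨q, hq, b, hb, rfl⟩ := ZFSet.mem_prod.1 (hDQ ht)
      rw [pfst_pair, psnd_pair]
      exact h.un b hb q hq) (by
      intro p hp
      obtain ⟨b, hb, q, hq, rfl⟩ := h.dec p hp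
      obtain ⟨q', hq', b', hb', h2, h3, h4⟩ := hd q hq b hb
      refine ⟨b' ∪ q', mem_img.2 ⟨pair q' b', h4, ?_⟩, union_mono' h3 h2⟩
      simp)
    obtain ⟨t, ht, he⟩ := mem_img.1 hp'
    obtain ⟨q, hq, b, hb, rfl⟩ := ZFSet.mem_prod.1 (hDQ ht)
    simp only [pfst_pair, psnd_pair] at he
    have hbG : b ∈ G ∧ q ∈ G := by
      constructor
      · refine hG.up p hp b (split_QP h hb) ?_
        first
          | (rw [he]; exact sub_union_left _ _)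
          | (rw [← he]; exact sub_union_left _ _)
      · refine hG.up p hp q (split_RP h hq) ?_
        first
          | (rw [he]; exact sub_union_right _ _)
          | (rw [← he]; exact sub_union_right _ _)
    exact ⟨q, mem_inter.2 ⟨hbG.2, hq⟩, b, mem_inter.2 ⟨hbG.1, hb⟩, ht⟩

theorem inter_mem {M A : Set ZFSet.{u}} (hM : IsZF M A) {a b : ZFSet.{u}} (ha : a ∈ M)
    (hb : b ∈ M) : a ∩ b ∈ M := by
  have h : U KZ.{u} (fun _ _ (a : ZFSet.{u} × ZFSet.{u}) => a.1 ∩ a.2) := by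
    apply_rules (transparency := .reducible) (maxDepth := 400) using is_poly
  have := h.closed hM (a := (a, b)) (by simp [ha, hb])
  simpa using this

/-- the product of two filters -/
noncomputable def pun (H K : ZFSet.{u}) : ZFSet.{u} :=
  Pool.Agent.Helper66.SC.img (H.prod K) (fun t => pfst t ∪ psnd t)

theorem mem_pun {H K x : ZFSet.{u}} : x ∈ pun H K ↔ ∃ b ∈ H, ∃ q ∈ K, x = b ∪ q := by
  unfold pun
  rw [mem_img]
  constructor
  · rintro ⟨t, ht, he⟩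
    obtain ⟨b, hb, q, hq, rfl⟩ := ZFSet.mem_prod.1 ht
    simp only [pfst_pair, psnd_pair] at he
    exact ⟨b, hb, q, hq, by first | exact he | exact he.symm⟩
  · rintro ⟨b, hb, q, hq, rfl⟩
    exact ⟨pair b q, pair_mem_prod.2 ⟨hb, hq⟩, by simp⟩

theorem pun_mem {M A : Set ZFSet.{u}} (hM : IsZF M A) {a b : ZFSet.{u}} (ha : a ∈ M)
    (hb : b ∈ M) : pun a b ∈ M := by
  unfold pun
  have h : U KZ.{u} (fun _ _ (a : ZFSet.{u} × ZFSet.{u}) =>
      Pool.Agent.Helper66.SC.img (a.1.prod a.2) (fun t => pfst t ∪ psnd t)) := by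
    apply_rules (transparency := .reducible) (maxDepth := 400) using is_poly
  have := h.closed hM (a := (a, b)) (by simp [ha, hb])
  simpa using this

theorem ext_split (hM : Ctm M) (h : Split M P Q R) (hG : IsGeneric M P G) :
    Ext (Ext M (G ∩ Q)) (G ∩ R) = Ext M G := by
  have hQ := genQ hM h hG
  have hR := genR hM h hG
  have hMQ := st_KE M Q (G ∩ Q) hM h.hQ hQ
  have hMG := st_KE M P G hM h.hP hG
  have hRM := sub_ext hM h.hQ hQ h.hR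
  have hMQR := st_KE _ R (G ∩ R) hMQ hRM hR
  have hGG := gen_mem_ext hM h.hP hG
  apply Set.Subset.antisymm
  · refine ext_le hMG (fun x hx => ?_) (inter_mem hMG.zf hGG (sub_ext hM h.hP hG h.hR))
    exact ext_le hMG (fun y hy => sub_ext hM h.hP hG hy)
      (inter_mem hMG.zf hGG (sub_ext hM h.hP hG h.hQ)) hx
  · refine ext_le hMQR (fun x hx => sub_ext hMQ hRM hR (sub_ext hM h.hQ hQ hx)) ?_
    have e : G = pun (G ∩ Q) (G ∩ R) := by
      ext x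
      rw [mem_pun]
      constructor
      · intro hx
        obtain ⟨b, hb, q, hq, rfl, hbG, hqG⟩ := dec_gen h hG hx
        exact ⟨b, mem_inter.2 ⟨hbG, hb⟩, q, mem_inter.2 ⟨hqG, hq⟩, rfl⟩
      · rintro ⟨b, hb, q, hq, rfl⟩
        obtain ⟨hb1, hb2⟩ := mem_inter.1 hb
        obtain ⟨hq1, hq2⟩ := mem_inter.1 hq
        exact union_mem_gen h hG hb2 hq2 hb1 hq1
    have := pun_mem hMQR.zf (sub_ext hMQ hRM hR (gen_mem_ext hM h.hQ hQ))
      (gen_mem_ext hMQ hRM hR)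
    rwa [← e] at this

theorem gen_pun (hM : Ctm M) (h : Split M P Q R) {H K : ZFSet.{u}} (hH : IsGeneric M Q H)
    (hK : IsGeneric (Ext M H) R K) : IsGeneric M P (pun H K) := by
  have hMH := st_KE M Q H hM h.hQ hH
  refine ⟨?_, ?_, ?_, ?_, ?_⟩
  · intro x hx
    obtain ⟨b, hb, q, hq, rfl⟩ := mem_pun.1 hx
    exact h.un b (hH.sub hb) q (hK.sub hq)
  · exact mem_pun.2 ⟨∅, hH.top, ∅, hK.top, by rw [union_empty']⟩
  · intro p hp p' hp' hpp
    obtain ⟨b, hb, q, hq, rfl⟩ := mem_pun.1 hp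
    obtain ⟨b', hb', q', hq', rfl⟩ := h.dec p' hp'
    obtain ⟨h1, h2⟩ := h.cmp b' hb' b (hH.sub hb) q' hq' q (hK.sub hq) hpp
    exact mem_pun.2 ⟨b', hH.up b hb b' hb' h1, q', hK.up q hq q' hq' h2, rfl⟩
  · intro p hp p' hp'
    obtain ⟨b, hb, q, hq, rfl⟩ := mem_pun.1 hp
    obtain ⟨b', hb', q', hq', rfl⟩ := mem_pun.1 hp'
    obtain ⟨c, hc, h1, h2⟩ := hH.dir b hb b' hb'
    obtain ⟨r, hr, h3, h4⟩ := hK.dir q hq q' hq'
    exact ⟨c ∪ r, mem_pun.2 ⟨c, hc, r, hr, rfl⟩, union_mono' h1 h3, union_mono' h2 h4⟩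
  · intro D hD hDP hd
    have h1 : ZFSet.sep (fun q => ∃ b ∈ H, b ∪ q ∈ D) R ∈ Ext M H := by
      have h' : U KZ.{u} (fun _ _ (a : (ZFSet.{u} × ZFSet.{u}) × ZFSet.{u}) =>
          ZFSet.sep (fun q => ∃ b ∈ a.1.2, b ∪ q ∈ a.2) a.1.1) := by
        apply_rules (transparency := .reducible) (maxDepth := 400) using is_poly
      have := h'.closed hMH.zf (a := ((R, H), D)) (by
        simp [sub_ext hM h.hQ hH h.hR, sub_ext hM h.hQ hH hD, gen_mem_ext hM h.hQ hH])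
      simpa using this
    obtain ⟨q, hq, hq'⟩ := hK.meets _ h1 (fun q hq => (ZFSet.mem_sep.1 hq).1) (by
      intro q₀ hq₀
      have h2 : ZFSet.sep (fun b => ∃ q ∈ R, q₀ ⊆ q ∧ b ∪ q ∈ D) Q ∈ M := by
        have h' : U KZ.{u} (fun _ _ (a : ((ZFSet.{u} × ZFSet.{u}) × ZFSet.{u}) × ZFSet.{u}) =>
            ZFSet.sep (fun b => ∃ q ∈ a.1.1.2, a.2 ⊆ q ∧ b ∪ q ∈ a.1.2) a.1.1.1) := by
          apply_rules (transparency := .reducible) (maxDepth := 400) using is_poly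
        have := h'.closed hM.zf (a := (((Q, R), D), q₀)) (by
          simp [h.hQ, h.hR, hD, hM.zf.trans R h.hR q₀ hq₀])
        simpa using this
      obtain ⟨b, hb, hb'⟩ := hH.meets _ h2 (fun b hb => (ZFSet.mem_sep.1 hb).1) (by
        intro b hb
        obtain ⟨d, hdD, hbd⟩ := hd _ (h.un b hb q₀ hq₀)
        obtain ⟨b', hb', q', hq', rfl⟩ := h.dec d (hDP hdD)
        obtain ⟨h3, h4⟩ := h.cmp b hb b' hb' q₀ hq₀ q' hq' hbd
        exact ⟨b', ZFSet.mem_sep.2 ⟨hb', q', hq', h4, hdD⟩, h3⟩)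
      obtain ⟨_, q, hq, h3, h4⟩ := ZFSet.mem_sep.1 hb'
      exact ⟨q, ZFSet.mem_sep.2 ⟨hq, b, hb, h4⟩, h3⟩)
    obtain ⟨_, b, hb, h2⟩ := ZFSet.mem_sep.1 hq'
    exact ⟨b ∪ q, mem_pun.2 ⟨b, hb, q, hq, rfl⟩, h2⟩

theorem pun_inter (h : Split M P Q R) {H K : ZFSet.{u}} (hH : IsGeneric M Q H) {N : Set ZFSet.{u}}
    (hK : IsGeneric N R K) : pun H K ∩ Q = H ∧ pun H K ∩ R = K := by
  constructor
  · ext x
    rw [mem_inter, mem_pun]
    constructor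
    · rintro ⟨⟨b, hb, q, hq, rfl⟩, hxQ⟩
      have h1 : b ∪ q ⊆ b := split_cmpQ h hxQ (hH.sub hb) (hK.sub hq) (fun _ h => h)
      have e : b ∪ q = b := by
        ext z
        exact ⟨fun hz => h1 hz, fun hz => sub_union_left _ _ hz⟩
      rw [e]
      exact hb
    · intro hx
      exact ⟨⟨x, hx, ∅, hK.top, (union_empty' x).symm⟩, hH.sub hx⟩
  · ext x
    rw [mem_inter, mem_pun]
    constructor
    · rintro ⟨⟨b, hb, q, hq, rfl⟩, hxR⟩
      have h1 : b ∪ q ⊆ q := split_cmpR h hxR (hH.sub hb) (hK.sub hq) (fun _ h => h)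
      have e : b ∪ q = q := by
        ext z
        exact ⟨fun hz => h1 hz, fun hz => sub_union_right _ _ hz⟩
      rw [e]
      exact hq
    · intro hx
      exact ⟨⟨∅, hH.top, x, hx, (empty_union' x).symm⟩, hK.sub hx⟩

end

/-- PL. -/
theorem st_PL : ST_PL.{u} := by
  intro M P Q R hM h
  refine ⟨fun G hG => ⟨genQ hM h hG, genR hM h hG, ext_split hM h hG⟩, fun H K hH hK => ?_⟩
  have hG := gen_pun hM h hH hK
  obtain ⟨e1, e2⟩ := pun_inter h hH hK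
  refine ⟨pun H K, hG, e1, e2, ?_⟩
  have := ext_split hM h hG
  rwa [e1, e2] at this

end Pool.Agent.Helper44.GP
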